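import Mathlib

/-!
# Gaussian kernel estimates
-/

open MeasureTheory ProbabilityTheory Set
open scoped NNReal ENNReal

namespace Pool.Agent.Helper14.BM

/-- the centred Gaussian density of variance `t` -/
noncomputable def gk (t z : ℝ) : ℝ := gaussianPDFReal 0 t.toNNReal z

theorem gk_def {t : ℝ} (ht : 0 < t) (z : ℝ) :
    gk t z = (Real.sqrt (2 * Real.pi * t))⁻¹ * Real.exp (-(z / Real.sqrt t) ^ 2 / 2) := by
  unfold gk
  rw [gaussianPDFReal_def, Real.coe_toNNReal _ ht.le, div_pow, Real.sq_sqrt ht.le]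
  have : -(z - 0) ^ 2 / (2 * t) = -(z ^ 2 / t) / 2 := by
    rw [sub_zero]
    field_simp
  simp only [this]

theorem gk_nonneg (t z : ℝ) : 0 ≤ gk t z := gaussianPDFReal_nonneg _ _ _

theorem gk_measurable : Measurable (fun p : ℝ × ℝ => gk p.1 p.2) := by
  unfold gk
  have h := measurable_uncurry_gaussianPDFReal
  exact h.comp (measurable_const.prodMk
    ((measurable_real_toNNReal.comp measurable_fst).prodMk measurable_snd))

theorem gk_integrable (t : ℝ) : Integrable (gk t) := integrable_gaussianPDFReal _ _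

/-- constant bound -/
theorem const_bound {t : ℝ} (ht : 0 < t) :
    (Real.sqrt (2 * Real.pi * t))⁻¹ ≤ 1 / 2 * t ^ (-(1 / 2) : ℝ) := by
  have h1 : t ^ (-(1 / 2) : ℝ) = (Real.sqrt t)⁻¹ := by
    rw [Real.rpow_neg ht.le, Real.sqrt_eq_rpow]
  rw [h1]
  have h4 : (4 : ℝ) ≤ 2 * Real.pi := by have := Real.pi_gt_three; linarith
  have h2 : 2 * Real.sqrt t ≤ Real.sqrt (2 * Real.pi * t) := by
    have : 2 * Real.sqrt t = Real.sqrt (4 * t) := by
      rw [show (4 : ℝ) * t = 2 ^ 2 * t by ring, Real.sqrt_mul (by positivity), Real.sqrt_sq (by norm_num)]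
    rw [this]
    exact Real.sqrt_le_sqrt (by nlinarith)
  have h3 : 0 < Real.sqrt t := Real.sqrt_pos.mpr ht
  calc (Real.sqrt (2 * Real.pi * t))⁻¹ ≤ (2 * Real.sqrt t)⁻¹ := by
        apply inv_anti₀ (by positivity) h2
    _ = 1 / 2 * (Real.sqrt t)⁻¹ := by rw [mul_inv]; norm_num

theorem gk_le {t : ℝ} (ht : 0 < t) (z : ℝ) : gk t z ≤ 1 / 2 * t ^ (-(1 / 2) : ℝ) := by
  rw [gk_def ht]
  have h1 : Real.exp (-(z / Real.sqrt t) ^ 2 / 2) ≤ 1 := by
    rw [Real.exp_le_one_iff]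
    have := sq_nonneg (z / Real.sqrt t)
    linarith
  have h2 : 0 ≤ (Real.sqrt (2 * Real.pi * t))⁻¹ := by positivity
  calc (Real.sqrt (2 * Real.pi * t))⁻¹ * Real.exp (-(z / Real.sqrt t) ^ 2 / 2)
      ≤ (Real.sqrt (2 * Real.pi * t))⁻¹ * 1 := by gcongr
    _ = (Real.sqrt (2 * Real.pi * t))⁻¹ := mul_one _
    _ ≤ _ := const_bound ht

theorem exp_lip (a b : ℝ) : |Real.exp (-a ^ 2 / 2) - Real.exp (-b ^ 2 / 2)| ≤ |a - b| := by
  have hd : ∀ x : ℝ, HasDerivAt (fun x : ℝ => Real.exp (-x ^ 2 / 2)) (Real.exp (-x ^ 2 / 2) * (-x)) x := by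
    intro x
    have h1 : HasDerivAt (fun x : ℝ => -x ^ 2 / 2) (-x) x := by
      have := ((hasDerivAt_pow 2 x).neg).div_const 2
      refine this.congr_deriv ?_
      push_cast
      ring
    exact h1.exp
  have hb : ∀ x : ℝ, ‖Real.exp (-x ^ 2 / 2) * (-x)‖ ≤ 1 := by
    intro x
    rw [norm_mul, norm_neg, Real.norm_eq_abs, Real.norm_eq_abs, abs_of_pos (Real.exp_pos _)]
    have h1 : |x| ≤ Real.exp (x ^ 2 / 2) := by
      have h2 := Real.add_one_le_exp (x ^ 2 / 2)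
      have h3 : 0 ≤ (|x| - 1) ^ 2 := sq_nonneg _
      have h4 : |x| ^ 2 = x ^ 2 := sq_abs x
      nlinarith
    calc Real.exp (-x ^ 2 / 2) * |x| ≤ Real.exp (-x ^ 2 / 2) * Real.exp (x ^ 2 / 2) := by gcongr
      _ = 1 := by rw [← Real.exp_add, neg_div, neg_add_cancel, Real.exp_zero]
  have := Convex.norm_image_sub_le_of_norm_hasDerivWithin_le (s := Set.univ) (C := 1)
    (f := fun x : ℝ => Real.exp (-x ^ 2 / 2)) (f' := fun x => Real.exp (-x ^ 2 / 2) * (-x))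
    (x := b) (y := a)
    (fun x _ => (hd x).hasDerivWithinAt) (fun x _ => hb x) convex_univ (mem_univ _) (mem_univ _)
  simpa [Real.norm_eq_abs] using this

theorem min_le_rpow {k : ℝ} (hk : 0 ≤ k) : min 1 k ≤ k ^ (3 / 4 : ℝ) := by
  rcases le_total k 1 with h | h
  · rw [min_eq_right h]
    calc k = k ^ (1 : ℝ) := (Real.rpow_one k).symm
      _ ≤ k ^ (3 / 4 : ℝ) := Real.rpow_le_rpow_of_exponent_ge' hk h (by norm_num) (by norm_num)
  · rw [min_eq_left h]
    exact Real.one_le_rpow h (by norm_num)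

theorem gk_diff {t h : ℝ} (ht : 0 < t) (hh : 0 ≤ h) (z : ℝ) :
    |gk t z - gk t (z + h)| ≤ 1 / 2 * t ^ (-(7 / 8) : ℝ) * h ^ (3 / 4 : ℝ) := by
  rw [gk_def ht, gk_def ht, ← mul_sub, abs_mul]
  have hst : 0 < Real.sqrt t := Real.sqrt_pos.mpr ht
  have hc0 : 0 ≤ (Real.sqrt (2 * Real.pi * t))⁻¹ := by positivity
  rw [abs_of_nonneg hc0]
  set a := z / Real.sqrt t
  set b := (z + h) / Real.sqrt t
  have hab : |a - b| = h / Real.sqrt t := by
    have : a - b = -(h / Real.sqrt t) := by simp only [a, b]; ring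
    rw [this, abs_neg, abs_of_nonneg (by positivity)]
  have h1 : |Real.exp (-a ^ 2 / 2) - Real.exp (-b ^ 2 / 2)| ≤ min 1 (h / Real.sqrt t) := by
    apply le_min
    · have e1 : Real.exp (-a ^ 2 / 2) ≤ 1 := by
        rw [Real.exp_le_one_iff]; nlinarith [sq_nonneg a]
      have e2 : Real.exp (-b ^ 2 / 2) ≤ 1 := by
        rw [Real.exp_le_one_iff]; nlinarith [sq_nonneg b]
      have e3 := Real.exp_pos (-a ^ 2 / 2)
      have e4 := Real.exp_pos (-b ^ 2 / 2)
      rw [abs_le]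
      constructor <;> linarith
    · rw [← hab]; exact exp_lip a b
  have h2 := h1.trans (min_le_rpow (k := h / Real.sqrt t) (by positivity))
  have h3 : (h / Real.sqrt t) ^ (3 / 4 : ℝ) = h ^ (3 / 4 : ℝ) * t ^ (-(3 / 8) : ℝ) := by
    rw [Real.div_rpow hh hst.le, Real.sqrt_eq_rpow, ← Real.rpow_mul ht.le, div_eq_mul_inv,
      ← Real.rpow_neg ht.le]
    norm_num
  rw [h3] at h2
  have h4 : t ^ (-(7 / 8) : ℝ) = t ^ (-(1 / 2) : ℝ) * t ^ (-(3 / 8) : ℝ) := by
    rw [← Real.rpow_add ht]; norm_num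
  calc (Real.sqrt (2 * Real.pi * t))⁻¹ * |Real.exp (-a ^ 2 / 2) - Real.exp (-b ^ 2 / 2)|
      ≤ (1 / 2 * t ^ (-(1 / 2) : ℝ)) * (h ^ (3 / 4 : ℝ) * t ^ (-(3 / 8) : ℝ)) := by
        apply mul_le_mul (const_bound ht) h2 (abs_nonneg _) (by positivity)
    _ = 1 / 2 * t ^ (-(7 / 8) : ℝ) * h ^ (3 / 4 : ℝ) := by rw [h4]; ring

/-- Integral against the Gaussian law, in terms of the kernel. -/
theorem integral_gaussian_eq {t : ℝ} (ht : 0 < t) (x : ℝ) (G : ℝ → ℝ) :
    ∫ w, G (x + w) ∂(gaussianReal 0 t.toNNReal) = ∫ z, gk t (z - x) * G z := by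
  have hv : t.toNNReal ≠ 0 := by
    intro h
    rw [Real.toNNReal_eq_zero] at h
    linarith
  rw [integral_gaussianReal_eq_integral_smul hv]
  simp only [smul_eq_mul]
  have := integral_add_right_eq_self (μ := (volume : Measure ℝ)) (fun z => gk t (z - x) * G z) x
  rw [← this]
  congr 1
  ext w
  simp only [add_sub_cancel_right, gk]
  rw [add_comm w x]

end Pool.Agent.Helper14.BM
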