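import Mathlib
import Pool.Agent.Helper14.BM.Kernel

/-!
# Moment recursion for additive functionals of Brownian motion with drift
-/

open MeasureTheory ProbabilityTheory Set Filter
open scoped NNReal ENNReal Topology

namespace Pool.Agent.Helper14.BM

theorem factor_abstract {Ω Ω' : Type*} [MeasurableSpace Ω] [MeasurableSpace Ω'] {P : Measure Ω}
    [IsProbabilityMeasure P] {w : Ω → ℝ} {V : Ω → Ω'} (hw : Measurable w) (hV : Measurable V)
    (hind : IndepFun w V P) {F : ℝ × Ω' → ℝ} (hF : Measurable F) {C : ℝ} (hC : ∀ p, |F p| ≤ C) :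
    ∫ ω, F (w ω, V ω) ∂P = ∫ x, ∫ ω, F (x, V ω) ∂P ∂(P.map w) := by
  have h1 := (indepFun_iff_map_prod_eq_prod_map_map hw.aemeasurable hV.aemeasurable).mp hind
  have h2 : ∫ ω, F (w ω, V ω) ∂P = ∫ p, F p ∂(P.map (fun ω => (w ω, V ω))) := by
    rw [integral_map (hw.prodMk hV).aemeasurable hF.aestronglyMeasurable]
  have : IsProbabilityMeasure (P.map w) := Measure.isProbabilityMeasure_map hw.aemeasurable
  have : IsProbabilityMeasure (P.map V) := Measure.isProbabilityMeasure_map hV.aemeasurable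
  rw [h2, h1, integral_prod]
  · congr 1
    ext x
    rw [integral_map hV.aemeasurable]
    exact (hF.comp measurable_prodMk_left).aestronglyMeasurable
  · refine Integrable.of_bound hF.aestronglyMeasurable C (Eventually.of_forall fun p => ?_)
    rw [Real.norm_eq_abs]; exact hC p

/-- the additive functional started at time `s` at the point `x` -/
noncomputable def Z {Ω : Type*} (W : ℝ → Ω → ℝ) (ψ f : ℝ → ℝ) (b s x : ℝ) (ω : Ω) : ℝ :=
  ∫ v in s..b, ψ (x + (W v ω - W s ω) - f v)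

theorem Z_meas_gen {Ω : Type*} [m : MeasurableSpace Ω] {W : ℝ → Ω → ℝ} {ψ f : ℝ → ℝ}
    (hψ : Continuous ψ) (hf : Continuous f) {b u : ℝ} (hub : u ≤ b)
    (hcont : ∀ ω, Continuous fun t => W t ω)
    (hmeas : ∀ v, u ≤ v → Measurable (fun ω => W v ω - W u ω)) :
    Measurable (fun p : ℝ × Ω => Z W ψ f b u p.1 p.2) := by
  have h1 : Measurable (Function.uncurry fun (v : ℝ) (ω : Ω) => W (max v u) ω - W u ω) := by
    apply measurable_uncurry_of_continuous_of_measurable
    · intro ω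
      exact ((hcont ω).comp (continuous_id.max continuous_const)).sub continuous_const
    · intro v
      exact hmeas _ (le_max_right v u)
  have h2 : Measurable
      (fun q : (ℝ × Ω) × ℝ => ψ (q.1.1 + (W (max q.2 u) q.1.2 - W u q.1.2) - f q.2)) := by
    apply hψ.measurable.comp
    refine Measurable.sub (Measurable.add ?_ ?_) ?_
    · exact measurable_fst.comp measurable_fst
    · exact h1.comp (measurable_snd.prodMk (measurable_snd.comp measurable_fst))
    · exact hf.measurable.comp measurable_snd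
  have h3 : StronglyMeasurable
      (fun p : ℝ × Ω => ∫ v in Ioc u b, ψ (p.1 + (W (max v u) p.2 - W u p.2) - f v)) := by
    apply StronglyMeasurable.integral_prod_right
    exact h2.stronglyMeasurable
  have h4 : (fun p : ℝ × Ω => Z W ψ f b u p.1 p.2) =
      fun p => ∫ v in Ioc u b, ψ (p.1 + (W (max v u) p.2 - W u p.2) - f v) := by
    ext p
    unfold Z
    rw [intervalIntegral.integral_of_le hub]
    apply setIntegral_congr_fun measurableSet_Ioc
    intro v hv
    simp only [max_eq_left hv.1.le]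
  rw [h4]
  exact h3.measurable

theorem F_meas_gen {Ω : Type*} [m : MeasurableSpace Ω] {ψ : ℝ → ℝ} {g : ℝ × Ω → ℝ}
    (hψ : Continuous ψ) (hg : Measurable g) (x y : ℝ) (k : ℕ) :
    Measurable (fun p : ℝ × Ω => ψ (x + p.1 - y) * g (x + p.1, p.2) ^ k) := by
  have h1 : Measurable (fun p : ℝ × Ω => g (x + p.1, p.2)) :=
    hg.comp ((measurable_const.add measurable_fst).prodMk measurable_snd)
  exact (hψ.measurable.comp ((measurable_const.add measurable_fst).sub measurable_const)).mul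
    (h1.pow_const k)

variable {Ω : Type*} [mΩ : MeasurableSpace Ω]

/-- The σ-algebra generated by the increments after time `u`. -/
def fut (W : ℝ → Ω → ℝ) (u : ℝ) : MeasurableSpace Ω :=
  ⨆ v : Set.Ici u, MeasurableSpace.comap (fun ω => W v ω - W u ω) inferInstance

/-- A Brownian motion all of whose paths are continuous, indexed by `ℝ` for convenience (only the
nonnegative times matter). -/
structure Nice (W : ℝ → Ω → ℝ) (P : Measure Ω) : Prop where
  cont : ∀ ω, Continuous fun t => W t ω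
  meas : ∀ t, Measurable (W t)
  law : ∀ s u : ℝ, 0 ≤ s → s ≤ u →
    P.map (fun ω => W u ω - W s ω) = gaussianReal 0 (u - s).toNNReal
  indep : ∀ s u : ℝ, 0 ≤ s → s ≤ u →
    Indep (MeasurableSpace.comap (fun ω => W u ω - W s ω) inferInstance) (fut W u) P

theorem fut_le {W : ℝ → Ω → ℝ} {P : Measure Ω} (hW : Nice W P) (u : ℝ) : fut W u ≤ mΩ := by
  unfold fut
  refine iSup_le fun v => ?_
  exact Measurable.comap_le ((hW.meas v).sub (hW.meas u))

theorem meas_fut {W : ℝ → Ω → ℝ} {u v : ℝ} (huv : u ≤ v) :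
    @Measurable Ω ℝ (fut W u) _ (fun ω => W v ω - W u ω) := by
  have h : MeasurableSpace.comap (fun ω => W v ω - W u ω) inferInstance ≤ fut W u := by
    unfold fut
    exact le_iSup (fun v : Set.Ici u =>
      MeasurableSpace.comap (fun ω => W v ω - W u ω) inferInstance) ⟨v, huv⟩
  exact Measurable.mono (comap_measurable _) h le_rfl

theorem factor {W : ℝ → Ω → ℝ} {P : Measure Ω} [IsProbabilityMeasure P] (hW : Nice W P)
    {s u : ℝ} (hs : 0 ≤ s) (hsu : s ≤ u) {F : ℝ × Ω → ℝ}
    (hF : @Measurable (ℝ × Ω) ℝ (@Prod.instMeasurableSpace _ _ _ (fut W u)) _ F)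
    {C : ℝ} (hC : ∀ p, |F p| ≤ C) :
    ∫ ω, F (W u ω - W s ω, ω) ∂P =
      ∫ x, ∫ ω, F (x, ω) ∂P ∂(gaussianReal 0 (u - s).toNNReal) := by
  rw [← hW.law s u hs hsu]
  have hw : Measurable (fun ω => W u ω - W s ω) := (hW.meas u).sub (hW.meas s)
  have hV : @Measurable Ω Ω mΩ (fut W u) id := by
    intro t ht
    exact fut_le hW u _ ht
  have hind : @IndepFun Ω ℝ Ω mΩ _ (fut W u) (fun ω => W u ω - W s ω) id P := by
    have := hW.indep s u hs hsu
    rw [@IndepFun_iff_Indep]
    rw [@MeasurableSpace.comap_id Ω (fut W u)]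
    exact this
  exact @factor_abstract Ω Ω mΩ (fut W u) P _ _ id hw hV hind F hF C hC

/-- its moments -/
noncomputable def M (P : Measure Ω) (W : ℝ → Ω → ℝ) (ψ f : ℝ → ℝ) (b : ℝ) (k : ℕ) (s x : ℝ) : ℝ :=
  ∫ ω, Z W ψ f b s x ω ^ k ∂P

/-- joint measurability of `Z` with respect to the future σ-algebra -/
theorem Z_meas_fut {W : ℝ → Ω → ℝ} {P : Measure Ω} (hW : Nice W P)
    {ψ f : ℝ → ℝ} (hψ : Continuous ψ) (hf : Continuous f) {b u : ℝ} (hub : u ≤ b) :
    @Measurable (ℝ × Ω) ℝ (@Prod.instMeasurableSpace _ _ _ (fut W u)) _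
      (fun p => Z W ψ f b u p.1 p.2) :=
  @Z_meas_gen Ω (fut W u) W ψ f hψ hf b u hub hW.cont (fun _ h => meas_fut h)

theorem Z_meas {W : ℝ → Ω → ℝ} {P : Measure Ω} (hW : Nice W P)
    {ψ f : ℝ → ℝ} (hψ : Continuous ψ) (hf : Continuous f) {b u : ℝ} (hub : u ≤ b) :
    Measurable (fun p : ℝ × Ω => Z W ψ f b u p.1 p.2) :=
  Z_meas_gen hψ hf hub hW.cont (fun _ _ => (hW.meas _).sub (hW.meas _))

theorem Z_bound {W : ℝ → Ω → ℝ} {ψ f : ℝ → ℝ} {C : ℝ} (hC : ∀ z, |ψ z| ≤ C) {b s : ℝ}
    (hsb : s ≤ b) (x : ℝ) (ω : Ω) : |Z W ψ f b s x ω| ≤ C * (b - s) := by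
  unfold Z
  have := intervalIntegral.norm_integral_le_of_norm_le_const (a := s) (b := b) (C := C)
    (f := fun v => ψ (x + (W v ω - W s ω) - f v)) (fun v _ => by
      rw [Real.norm_eq_abs]; exact hC _)
  rw [Real.norm_eq_abs, abs_of_nonneg (sub_nonneg.mpr hsb)] at this
  exact this

/-- pathwise identity -/
theorem pow_integral_eq {g : ℝ → ℝ} (hg : Continuous g) (s b : ℝ) (k : ℕ) :
    (∫ v in s..b, g v) ^ (k + 1) =
      ∫ u in s..b, (k + 1 : ℝ) * (g u * (∫ v in u..b, g v) ^ k) := by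
  have hd : ∀ u : ℝ, HasDerivAt (fun u => ∫ v in u..b, g v) (-g u) u := by
    intro u
    exact intervalIntegral.integral_hasDerivAt_left (hg.intervalIntegrable _ _)
      (hg.stronglyMeasurableAtFilter _ _) hg.continuousAt
  have hd2 : ∀ u : ℝ, HasDerivAt (fun u => -(∫ v in u..b, g v) ^ (k + 1))
      ((k + 1 : ℝ) * (g u * (∫ v in u..b, g v) ^ k)) u := by
    intro u
    have := ((hd u).pow (k + 1)).neg
    refine this.congr_deriv ?_
    push_cast
    simp
    ring
  have hcont : Continuous (fun u => (k + 1 : ℝ) * (g u * (∫ v in u..b, g v) ^ k)) := by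
    have : Continuous (fun u => ∫ v in u..b, g v) :=
      continuous_iff_continuousAt.mpr fun u => (hd u).continuousAt
    fun_prop
  rw [intervalIntegral.integral_eq_sub_of_hasDerivAt (fun u _ => hd2 u)
    (hcont.intervalIntegrable _ _)]
  simp

/-- flow property of `Z` -/
theorem Z_flow {W : ℝ → Ω → ℝ} {ψ f : ℝ → ℝ} (b s x u : ℝ) (ω : Ω) :
    ∫ v in u..b, ψ (x + (W v ω - W s ω) - f v) = Z W ψ f b u (x + (W u ω - W s ω)) ω := by
  unfold Z
  congr 1
  ext v
  congr 1
  ring

theorem joint_integrable {W : ℝ → Ω → ℝ} {P : Measure Ω} [IsProbabilityMeasure P] (hW : Nice W P)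
    {ψ f : ℝ → ℝ} (hψ : Continuous ψ) (hf : Continuous f) {C : ℝ} (hC : ∀ z, |ψ z| ≤ C)
    {b s : ℝ} (k : ℕ) (x : ℝ) :
    Integrable (fun q : Ω × ℝ => (k + 1 : ℝ) *
      (ψ (x + (W q.2 q.1 - W s q.1) - f q.2) *
        Z W ψ f b q.2 (x + (W q.2 q.1 - W s q.1)) q.1 ^ k))
      (P.prod (volume.restrict (Ioc s b))) := by
  have hC0 : 0 ≤ C := (abs_nonneg _).trans (hC 0)
  have hm1 : Measurable (Function.uncurry fun (v : ℝ) (ω : Ω) => W v ω) :=
    measurable_uncurry_of_continuous_of_measurable hW.cont hW.meas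
  have hZc : ∀ ω, Continuous (fun u => Z W ψ f b u (x + (W u ω - W s ω)) ω) := by
    intro ω
    have hg : Continuous (fun v => ψ (x + (W v ω - W s ω) - f v)) := by
      have := hW.cont ω
      fun_prop
    have : (fun u => Z W ψ f b u (x + (W u ω - W s ω)) ω) =
        fun u => ∫ v in u..b, ψ (x + (W v ω - W s ω) - f v) := by
      ext u
      exact (Z_flow b s x u ω).symm
    rw [this]
    have hd : ∀ u : ℝ, HasDerivAt (fun u => ∫ v in u..b, ψ (x + (W v ω - W s ω) - f v))
        (-ψ (x + (W u ω - W s ω) - f u)) u := by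
      intro u
      exact intervalIntegral.integral_hasDerivAt_left (hg.intervalIntegrable _ _)
        (hg.stronglyMeasurableAtFilter _ _) hg.continuousAt
    exact continuous_iff_continuousAt.mpr fun u => (hd u).continuousAt
  have hm2 : Measurable (Function.uncurry fun (u : ℝ) (ω : Ω) =>
      Z W ψ f b (min u b) (x + (W (min u b) ω - W s ω)) ω) := by
    apply measurable_uncurry_of_continuous_of_measurable
    · intro ω
      exact (hZc ω).comp (continuous_id.min continuous_const)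
    · intro u
      exact (Z_meas hW hψ hf (min_le_right u b)).comp
        ((measurable_const.add ((hW.meas _).sub (hW.meas _))).prodMk measurable_id)
  have hm3 : Measurable (fun q : Ω × ℝ => (k + 1 : ℝ) *
      (ψ (x + (W q.2 q.1 - W s q.1) - f q.2) *
        Z W ψ f b (min q.2 b) (x + (W (min q.2 b) q.1 - W s q.1)) q.1 ^ k)) := by
    have h1 : Measurable (fun q : Ω × ℝ => W q.2 q.1) :=
      hm1.comp (measurable_snd.prodMk measurable_fst)
    have h2 : Measurable (fun q : Ω × ℝ => W s q.1) := (hW.meas s).comp measurable_fst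
    have h3 : Measurable (fun q : Ω × ℝ =>
        Z W ψ f b (min q.2 b) (x + (W (min q.2 b) q.1 - W s q.1)) q.1) :=
      hm2.comp (measurable_snd.prodMk measurable_fst)
    have h4 : Measurable (fun q : Ω × ℝ => f q.2) := hf.measurable.comp measurable_snd
    exact ((hψ.measurable.comp ((measurable_const.add (h1.sub h2)).sub h4)).mul
      (h3.pow_const k)).const_mul _
  have hprod : P.prod (volume.restrict (Ioc s b)) =
      (P.prod volume).restrict ((univ : Set Ω) ×ˢ Ioc s b) := by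
    rw [← Measure.prod_restrict, Measure.restrict_univ]
  rw [hprod]
  have hfin : (P.prod volume) ((univ : Set Ω) ×ˢ Ioc s b) < ⊤ := by
    rw [Measure.prod_prod]
    simp
  have hi : IntegrableOn (fun q : Ω × ℝ => (k + 1 : ℝ) *
      (ψ (x + (W q.2 q.1 - W s q.1) - f q.2) *
        Z W ψ f b (min q.2 b) (x + (W (min q.2 b) q.1 - W s q.1)) q.1 ^ k))
      ((univ : Set Ω) ×ˢ Ioc s b) (P.prod volume) := by
    refine Measure.integrableOn_of_bounded (M := (k + 1 : ℝ) * (C * (C * (b - s)) ^ k))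
      hfin.ne hm3.aestronglyMeasurable ?_
    refine (ae_restrict_iff' (MeasurableSet.univ.prod measurableSet_Ioc)).mpr
      (Eventually.of_forall fun q hq => ?_)
    have hq2 : q.2 ∈ Ioc s b := hq.2
    rw [norm_mul, norm_mul, norm_pow, Real.norm_eq_abs, Real.norm_eq_abs, Real.norm_eq_abs,
      abs_of_nonneg (by positivity : (0 : ℝ) ≤ k + 1)]
    have h1 := Z_bound (W := W) (f := f) hC (min_le_right q.2 b)
      (x + (W (min q.2 b) q.1 - W s q.1)) q.1
    have h2 := hC (x + (W q.2 q.1 - W s q.1) - f q.2)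
    have h3 : C * (b - min q.2 b) ≤ C * (b - s) := by
      rw [min_eq_left hq2.2]
      have := hq2.1
      gcongr
    have h4 := h1.trans h3
    gcongr
  refine hi.congr_fun ?_ (MeasurableSet.univ.prod measurableSet_Ioc)
  rintro ⟨ω, u⟩ hq
  have hq2 : u ∈ Ioc s b := hq.2
  simp only [min_eq_left hq2.2]

theorem inner_eq {W : ℝ → Ω → ℝ} {P : Measure Ω} [IsProbabilityMeasure P] (hW : Nice W P)
    {ψ f : ℝ → ℝ} (hψ : Continuous ψ) (hf : Continuous f) {C : ℝ} (hC : ∀ z, |ψ z| ≤ C)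
    {b s : ℝ} (hs : 0 ≤ s) (k : ℕ) (x : ℝ) {u : ℝ} (hu : u ∈ Ioc s b) :
    ∫ ω, (k + 1 : ℝ) * (ψ (x + (W u ω - W s ω) - f u) *
        Z W ψ f b u (x + (W u ω - W s ω)) ω ^ k) ∂P =
      (k + 1 : ℝ) * ∫ w, ψ (x + w - f u) * M P W ψ f b k u (x + w)
        ∂(gaussianReal 0 (u - s).toNNReal) := by
  have hC0 : 0 ≤ C := (abs_nonneg _).trans (hC 0)
  rw [integral_const_mul]
  congr 1
  have hF : @Measurable (ℝ × Ω) ℝ (@Prod.instMeasurableSpace _ _ _ (fut W u)) _
      (fun p => ψ (x + p.1 - f u) * Z W ψ f b u (x + p.1) p.2 ^ k) :=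
    @F_meas_gen Ω (fut W u) ψ _ hψ (Z_meas_fut hW hψ hf hu.2) x (f u) k
  have hbd : ∀ p : ℝ × Ω, |ψ (x + p.1 - f u) * Z W ψ f b u (x + p.1) p.2 ^ k| ≤
      C * (C * (b - u)) ^ k := by
    intro p
    rw [abs_mul, abs_pow]
    have h1 := Z_bound (W := W) (f := f) hC hu.2 (x + p.1) p.2
    have h2 := hC (x + p.1 - f u)
    gcongr
  have := factor hW hs hu.1.le hF hbd
  simp only at this
  rw [this]
  congr 1
  ext w
  rw [integral_const_mul]
  rfl

theorem M_recursion {W : ℝ → Ω → ℝ} {P : Measure Ω} [IsProbabilityMeasure P] (hW : Nice W P)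
    {ψ f : ℝ → ℝ} (hψ : Continuous ψ) (hf : Continuous f) {C : ℝ} (hC : ∀ z, |ψ z| ≤ C)
    {b s : ℝ} (hs : 0 ≤ s) (hsb : s ≤ b) (k : ℕ) (x : ℝ) :
    M P W ψ f b (k + 1) s x = (k + 1 : ℝ) * ∫ u in s..b,
      ∫ w, ψ (x + w - f u) * M P W ψ f b k u (x + w) ∂(gaussianReal 0 (u - s).toNNReal) := by
  have hpath : ∀ ω, Z W ψ f b s x ω ^ (k + 1) = ∫ u in s..b, (k + 1 : ℝ) *
      (ψ (x + (W u ω - W s ω) - f u) * Z W ψ f b u (x + (W u ω - W s ω)) ω ^ k) := by
    intro ω
    have hg : Continuous (fun v => ψ (x + (W v ω - W s ω) - f v)) := by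
      have := hW.cont ω
      fun_prop
    have h := pow_integral_eq hg s b k
    unfold Z at *
    rw [h]
    congr 1
    ext u
    have := Z_flow (W := W) (ψ := ψ) (f := f) b s x u ω
    unfold Z at this
    rw [this]
  have h0 : M P W ψ f b (k + 1) s x = ∫ ω, Z W ψ f b s x ω ^ (k + 1) ∂P := rfl
  rw [h0]
  simp only [hpath]
  -- swap the integrals
  simp only [intervalIntegral.integral_of_le hsb]
  rw [integral_integral_swap]
  swap
  · exact joint_integrable hW hψ hf hC k x
  rw [← integral_const_mul]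
  apply setIntegral_congr_fun measurableSet_Ioc
  intro u hu
  simp only
  exact inner_eq hW hψ hf hC hs k x hu

theorem M_inner_intble {W : ℝ → Ω → ℝ} {P : Measure Ω} [IsProbabilityMeasure P] (hW : Nice W P)
    {ψ f : ℝ → ℝ} (hψ : Continuous ψ) (hf : Continuous f) {C : ℝ} (hC : ∀ z, |ψ z| ≤ C)
    {b s : ℝ} (hs : 0 ≤ s) (hsb : s ≤ b) (k : ℕ) (x : ℝ) :
    IntervalIntegrable (fun u => ∫ w, ψ (x + w - f u) * M P W ψ f b k u (x + w)
      ∂(gaussianReal 0 (u - s).toNNReal)) volume s b := by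
  rw [intervalIntegrable_iff_integrableOn_Ioc_of_le hsb]
  have h1 := (joint_integrable (b := b) (s := s) hW hψ hf hC k x).integral_prod_right
  have h2 := h1.const_mul (k + 1 : ℝ)⁻¹
  refine (integrableOn_congr_fun ?_ measurableSet_Ioc).mp h2
  intro u hu
  simp only
  rw [inner_eq hW hψ hf hC hs k x hu]
  have : (k + 1 : ℝ) ≠ 0 := by positivity
  field_simp

theorem M_meas {W : ℝ → Ω → ℝ} {P : Measure Ω} [IsProbabilityMeasure P] (hW : Nice W P)
    {ψ f : ℝ → ℝ} (hψ : Continuous ψ) (hf : Continuous f) {b u : ℝ} (hub : u ≤ b) (k : ℕ) :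
    Measurable (M P W ψ f b k u) := by
  have h : StronglyMeasurable (fun x => ∫ ω, Z W ψ f b u x ω ^ k ∂P) := by
    apply StronglyMeasurable.integral_prod_right
    exact ((Z_meas hW hψ hf hub).pow_const k).stronglyMeasurable
  exact h.measurable

theorem M_zero {W : ℝ → Ω → ℝ} {P : Measure Ω} [IsProbabilityMeasure P]
    {ψ f : ℝ → ℝ} {b u x : ℝ} : M P W ψ f b 0 u x = 1 := by
  simp [M]

end Pool.Agent.Helper14.BM
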