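import Mathlib
import Pool.Agent.Helper14.BM.Recursion

/-!
# Moment bounds
-/

open MeasureTheory ProbabilityTheory Set Filter
open scoped NNReal ENNReal Topology

namespace Pool.Agent.Helper14.BM

/-! ### spatial estimates -/

theorem K1 {t : ℝ} (ht : 0 < t) {ψ G : ℝ → ℝ} (hψ : Integrable ψ) {A : ℝ}
    (hA : ∀ z, |G z| ≤ A) (x y : ℝ) :
    |∫ w, ψ (x + w - y) * G (x + w) ∂(gaussianReal 0 t.toNNReal)| ≤
      (∫ z, |ψ z|) * A * (1 / 2 * t ^ (-(1 / 2) : ℝ)) := by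
  have hA0 : 0 ≤ A := (abs_nonneg _).trans (hA 0)
  rw [integral_gaussian_eq ht x (fun z => ψ (z - y) * G z), ← Real.norm_eq_abs]
  have hi : Integrable (fun z => (1 / 2 * t ^ (-(1 / 2) : ℝ)) * (|ψ (z - y)| * A)) := by
    have : Integrable (fun z => |ψ (z - y)|) := (hψ.comp_sub_right y).abs
    exact (this.mul_const A).const_mul _
  refine (norm_integral_le_of_norm_le hi (Eventually.of_forall fun z => ?_)).trans ?_
  · rw [norm_mul, norm_mul, Real.norm_eq_abs, Real.norm_eq_abs, Real.norm_eq_abs,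
      abs_of_nonneg (gk_nonneg _ _)]
    have h1 := gk_le ht (z - x)
    have h2 := hA z
    have h0 := gk_nonneg t (z - x)
    gcongr
  · rw [integral_const_mul, integral_mul_const]
    have : ∫ z, |ψ (z - y)| = ∫ z, |ψ z| := integral_sub_right_eq_self (fun z => |ψ z|) y
    rw [this]
    apply le_of_eq
    ring

theorem integrable_gk_mul {t : ℝ} {G : ℝ → ℝ} (hG : Measurable G) {A : ℝ}
    (hA : ∀ z, |G z| ≤ A) (x : ℝ) : Integrable (fun z => gk t (z - x) * G z) := by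
  have h1 : Integrable (fun z => gk t (z - x)) := (gk_integrable t).comp_sub_right x
  have := h1.bdd_mul (c := A) hG.aestronglyMeasurable (Eventually.of_forall fun z => by
    rw [Real.norm_eq_abs]; exact hA z)
  simpa [mul_comm] using this

theorem K2 {t h : ℝ} (ht : 0 < t) (hh : 0 ≤ h) {ψ G : ℝ → ℝ} (hψ : Integrable ψ)
    (hψc : Continuous ψ) {C : ℝ} (hC : ∀ z, |ψ z| ≤ C) (hG : Measurable G) {A : ℝ}
    (hA : ∀ z, |G z| ≤ A) (x y : ℝ) :
    |(∫ w, ψ (x + w - y) * G (x + w) ∂(gaussianReal 0 t.toNNReal)) -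
      (∫ w, ψ (x + h + w - y) * G (x + h + w) ∂(gaussianReal 0 t.toNNReal))| ≤
      (∫ z, |ψ z|) * A * (1 / 2 * t ^ (-(7 / 8) : ℝ) * h ^ (3 / 4 : ℝ)) := by
  have hA0 : 0 ≤ A := (abs_nonneg _).trans (hA 0)
  have hC0 : 0 ≤ C := (abs_nonneg _).trans (hC 0)
  rw [integral_gaussian_eq ht x (fun z => ψ (z - y) * G z),
    integral_gaussian_eq ht (x + h) (fun z => ψ (z - y) * G z)]
  have hm : Measurable (fun z => ψ (z - y) * G z) :=
    (hψc.measurable.comp (measurable_id.sub measurable_const)).mul hG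
  have hb : ∀ z, |ψ (z - y) * G z| ≤ C * A := by
    intro z
    rw [abs_mul]
    have h1 := hC (z - y)
    have h2 := hA z
    gcongr
  rw [← integral_sub (integrable_gk_mul hm hb x) (integrable_gk_mul hm hb (x + h)),
    ← Real.norm_eq_abs]
  have hi : Integrable (fun z => (1 / 2 * t ^ (-(7 / 8) : ℝ) * h ^ (3 / 4 : ℝ)) *
      (|ψ (z - y)| * A)) := by
    have : Integrable (fun z => |ψ (z - y)|) := (hψ.comp_sub_right y).abs
    exact (this.mul_const A).const_mul _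
  refine (norm_integral_le_of_norm_le hi (Eventually.of_forall fun z => ?_)).trans ?_
  · rw [← sub_mul, norm_mul, norm_mul, Real.norm_eq_abs, Real.norm_eq_abs, Real.norm_eq_abs]
    have h1 := gk_diff ht hh (z - (x + h))
    rw [show z - (x + h) + h = z - x by ring, abs_sub_comm] at h1
    have h2 := hA z
    gcongr
  · rw [integral_const_mul, integral_mul_const]
    have : ∫ z, |ψ (z - y)| = ∫ z, |ψ z| := integral_sub_right_eq_self (fun z => |ψ z|) y
    rw [this]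
    apply le_of_eq
    ring

theorem K3 {t h : ℝ} (ht : 0 < t) (hh : 0 ≤ h) {φ G : ℝ → ℝ} (hφ : Integrable φ)
    (hφc : Continuous φ) {C : ℝ} (hC : ∀ z, |φ z| ≤ C) (hG : Measurable G) {A O : ℝ}
    (hA : ∀ z, |G z| ≤ A) (hO : ∀ z, |G z - G (z + h)| ≤ O) (x y : ℝ) :
    |∫ w, (φ (x + w - y) - φ (x + w - y - h)) * G (x + w) ∂(gaussianReal 0 t.toNNReal)| ≤
      (∫ z, |φ z|) * (O * (1 / 2 * t ^ (-(1 / 2) : ℝ)) +
        A * (1 / 2 * t ^ (-(7 / 8) : ℝ) * h ^ (3 / 4 : ℝ))) := by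
  have hA0 : 0 ≤ A := (abs_nonneg _).trans (hA 0)
  have hC0 : 0 ≤ C := (abs_nonneg _).trans (hC 0)
  have hO0 : 0 ≤ O := (abs_nonneg _).trans (hO 0)
  rw [integral_gaussian_eq ht x (fun z => (φ (z - y) - φ (z - y - h)) * G z)]
  have hm1 : Measurable (fun z => φ (z - y) * G z) :=
    (hφc.measurable.comp (measurable_id.sub measurable_const)).mul hG
  have hm2 : Measurable (fun z => φ (z - y - h) * G z) :=
    (hφc.measurable.comp ((measurable_id.sub measurable_const).sub measurable_const)).mul hG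
  have hb1 : ∀ z, |φ (z - y) * G z| ≤ C * A := by
    intro z
    rw [abs_mul]
    have h1 := hC (z - y)
    have h2 := hA z
    gcongr
  have hb2 : ∀ z, |φ (z - y - h) * G z| ≤ C * A := by
    intro z
    rw [abs_mul]
    have h1 := hC (z - y - h)
    have h2 := hA z
    gcongr
  have hi1 := integrable_gk_mul (t := t) hm1 hb1 x
  have hi2 := integrable_gk_mul (t := t) hm2 hb2 x
  have e1 : (fun z => gk t (z - x) * ((φ (z - y) - φ (z - y - h)) * G z)) =
      fun z => gk t (z - x) * (φ (z - y) * G z) - gk t (z - x) * (φ (z - y - h) * G z) := by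
    ext z; ring
  have e2 : ∫ z, gk t (z - x) * (φ (z - y - h) * G z) =
      ∫ z, gk t (z + h - x) * (φ (z - y) * G (z + h)) := by
    have := integral_add_right_eq_self (μ := (volume : Measure ℝ))
      (fun z => gk t (z - x) * (φ (z - y - h) * G z)) h
    rw [← this]
    congr 1
    ext z
    rw [show z + h - y - h = z - y by ring]
  have hi3 : Integrable (fun z => gk t (z + h - x) * (φ (z - y) * G (z + h))) := by
    have := hi2.comp_add_right h
    refine this.congr (Eventually.of_forall fun z => ?_)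
    simp only
    rw [show z + h - y - h = z - y by ring]
  rw [e1, integral_sub hi1 hi2, e2, ← integral_sub hi1 hi3, ← Real.norm_eq_abs]
  have hi : Integrable (fun z => (O * (1 / 2 * t ^ (-(1 / 2) : ℝ)) +
        A * (1 / 2 * t ^ (-(7 / 8) : ℝ) * h ^ (3 / 4 : ℝ))) * |φ (z - y)|) :=
    ((hφ.comp_sub_right y).abs).const_mul _
  refine (norm_integral_le_of_norm_le hi (Eventually.of_forall fun z => ?_)).trans ?_
  · have e3 : gk t (z - x) * (φ (z - y) * G z) - gk t (z + h - x) * (φ (z - y) * G (z + h)) =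
        (gk t (z - x) * (G z - G (z + h)) + (gk t (z - x) - gk t (z + h - x)) * G (z + h)) *
          φ (z - y) := by ring
    rw [e3, norm_mul, Real.norm_eq_abs, Real.norm_eq_abs]
    have h1 := gk_diff ht hh (z - x)
    rw [show z - x + h = z + h - x by ring] at h1
    have h2 := hA (z + h)
    have h3 := hO z
    have h4 := gk_le ht (z - x)
    have h0 := gk_nonneg t (z - x)
    have h5 : |gk t (z - x) * (G z - G (z + h)) + (gk t (z - x) - gk t (z + h - x)) * G (z + h)| ≤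
        O * (1 / 2 * t ^ (-(1 / 2) : ℝ)) + A * (1 / 2 * t ^ (-(7 / 8) : ℝ) * h ^ (3 / 4 : ℝ)) := by
      refine (abs_add_le _ _).trans ?_
      rw [abs_mul, abs_mul, abs_of_nonneg h0]
      have h6 : gk t (z - x) * |G z - G (z + h)| ≤ O * (1 / 2 * t ^ (-(1 / 2) : ℝ)) := by
        rw [mul_comm]
        gcongr
      have h7 : |gk t (z - x) - gk t (z + h - x)| * |G (z + h)| ≤
          A * (1 / 2 * t ^ (-(7 / 8) : ℝ) * h ^ (3 / 4 : ℝ)) := by
        rw [mul_comm]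
        gcongr
      exact add_le_add h6 h7
    gcongr
  · rw [integral_const_mul]
    have : ∫ z, |φ (z - y)| = ∫ z, |φ z| := integral_sub_right_eq_self (fun z => |φ z|) y
    rw [this]
    apply le_of_eq
    ring

/-! ### time integrals -/

theorem int_rpow (s b : ℝ) {r : ℝ} (hr : -1 < r) :
    ∫ u in s..b, (u - s) ^ r = (b - s) ^ (r + 1) / (r + 1) := by
  have h := intervalIntegral.integral_comp_sub_right (a := s) (b := b) (fun u => u ^ r) s
  simp only [sub_self] at h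
  rw [h, integral_rpow (Or.inl hr), Real.zero_rpow (by linarith), sub_zero]

theorem intble_rpow (s b : ℝ) {r : ℝ} (hr : -1 < r) :
    IntervalIntegrable (fun u => (u - s) ^ r) volume s b := by
  have h := (intervalIntegral.intervalIntegrable_rpow' (a := 0) (b := b - s) hr).comp_sub_right s
  simpa using h

theorem time_bound {s b c1 c2 : ℝ} (hsb : s ≤ b) (h1 : b - s ≤ 1) (hc1 : 0 ≤ c1) (hc2 : 0 ≤ c2)
    {g : ℝ → ℝ} (hg : ∀ u, s < u → u ≤ b → |g u| ≤ c1 * (1 / 2 * (u - s) ^ (-(1 / 2) : ℝ)) +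
      c2 * (1 / 2 * (u - s) ^ (-(7 / 8) : ℝ))) :
    |∫ u in s..b, g u| ≤ c1 + 4 * c2 := by
  have hi1 : IntervalIntegrable (fun u => c1 * (1 / 2 * (u - s) ^ (-(1 / 2) : ℝ))) volume s b :=
    ((intble_rpow s b (by norm_num)).const_mul _).const_mul _
  have hi2 : IntervalIntegrable (fun u => c2 * (1 / 2 * (u - s) ^ (-(7 / 8) : ℝ))) volume s b :=
    ((intble_rpow s b (by norm_num)).const_mul _).const_mul _
  have := intervalIntegral.norm_integral_le_of_norm_le (μ := volume) hsb (f := g)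
    (g := fun u => c1 * (1 / 2 * (u - s) ^ (-(1 / 2) : ℝ)) +
      c2 * (1 / 2 * (u - s) ^ (-(7 / 8) : ℝ)))
    (Eventually.of_forall fun u hu => by
      rw [Real.norm_eq_abs]; exact hg u hu.1 hu.2) (hi1.add hi2)
  rw [Real.norm_eq_abs] at this
  refine this.trans ?_
  rw [intervalIntegral.integral_add hi1 hi2, intervalIntegral.integral_const_mul,
    intervalIntegral.integral_const_mul, intervalIntegral.integral_const_mul,
    intervalIntegral.integral_const_mul, int_rpow s b (by norm_num), int_rpow s b (by norm_num)]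
  have hbs : 0 ≤ b - s := sub_nonneg.mpr hsb
  have e1 : (b - s) ^ (-(1 / 2) + 1 : ℝ) ≤ 1 := Real.rpow_le_one hbs h1 (by norm_num)
  have e2 : (b - s) ^ (-(7 / 8) + 1 : ℝ) ≤ 1 := Real.rpow_le_one hbs h1 (by norm_num)
  have e3 : (0 : ℝ) ≤ (b - s) ^ (-(1 / 2) + 1 : ℝ) := Real.rpow_nonneg hbs _
  have e4 : (0 : ℝ) ≤ (b - s) ^ (-(7 / 8) + 1 : ℝ) := Real.rpow_nonneg hbs _
  have f1 : (b - s) ^ (-(1 / 2) + 1 : ℝ) / (-(1 / 2) + 1 : ℝ) ≤ 2 := by
    rw [div_le_iff₀ (by norm_num)]; linarith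
  have f2 : (b - s) ^ (-(7 / 8) + 1 : ℝ) / (-(7 / 8) + 1 : ℝ) ≤ 8 := by
    rw [div_le_iff₀ (by norm_num)]; linarith
  nlinarith

theorem time_bound_half {s b c : ℝ} (hsb : s ≤ b) (hc : 0 ≤ c)
    {g : ℝ → ℝ} (hg : ∀ u, s < u → u ≤ b → |g u| ≤ c * (1 / 2 * (u - s) ^ (-(1 / 2) : ℝ))) :
    |∫ u in s..b, g u| ≤ c * (b - s) ^ (1 / 2 : ℝ) := by
  have hi1 : IntervalIntegrable (fun u => c * (1 / 2 * (u - s) ^ (-(1 / 2) : ℝ))) volume s b :=
    ((intble_rpow s b (by norm_num)).const_mul _).const_mul _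
  have := intervalIntegral.norm_integral_le_of_norm_le (μ := volume) hsb (f := g)
    (g := fun u => c * (1 / 2 * (u - s) ^ (-(1 / 2) : ℝ)))
    (Eventually.of_forall fun u hu => by
      rw [Real.norm_eq_abs]; exact hg u hu.1 hu.2) hi1
  rw [Real.norm_eq_abs] at this
  refine this.trans ?_
  rw [intervalIntegral.integral_const_mul,
    intervalIntegral.integral_const_mul, int_rpow s b (by norm_num)]
  apply le_of_eq
  have e : (-(1 / 2) + 1 : ℝ) = 1 / 2 := by norm_num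
  rw [e]
  ring

/-! ### moment bounds -/

variable {Ω : Type*} [mΩ : MeasurableSpace Ω]

theorem M_pos_bound {W : ℝ → Ω → ℝ} {P : Measure Ω} [IsProbabilityMeasure P] (hW : Nice W P)
    {ψ f : ℝ → ℝ} (hψ : Continuous ψ) (hf : Continuous f) {C : ℝ} (hC : ∀ z, |ψ z| ≤ C)
    (hψi : Integrable ψ) {b : ℝ} (k : ℕ) :
    ∀ {s : ℝ}, 0 ≤ s → s ≤ b → ∀ x, |M P W ψ f b k s x| ≤
      (k.factorial : ℝ) * ((∫ z, |ψ z|) * (b - s) ^ (1 / 2 : ℝ)) ^ k := by
  have hI : 0 ≤ ∫ z, |ψ z| := integral_nonneg fun _ => abs_nonneg _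
  induction k with
  | zero => intro s _ _ x; simp [M_zero]
  | succ k ih =>
    intro s hs hsb x
    rw [M_recursion hW hψ hf hC hs hsb k x, abs_mul, abs_of_nonneg (by positivity : (0:ℝ) ≤ k + 1)]
    have hbs : 0 ≤ (b - s) ^ (1 / 2 : ℝ) := Real.rpow_nonneg (by linarith) _
    have h1 : |∫ u in s..b, ∫ w, ψ (x + w - f u) * M P W ψ f b k u (x + w)
        ∂(gaussianReal 0 (u - s).toNNReal)| ≤
        ((∫ z, |ψ z|) * ((k.factorial : ℝ) * ((∫ z, |ψ z|) * (b - s) ^ (1 / 2 : ℝ)) ^ k)) *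
          (b - s) ^ (1 / 2 : ℝ) := by
      apply time_bound_half hsb (by positivity)
      intro u hu hub
      refine K1 (sub_pos.mpr hu) hψi ?_ x (f u)
      intro z
      refine (ih (hs.trans hu.le) hub z).trans ?_
      have : (b - u) ^ (1 / 2 : ℝ) ≤ (b - s) ^ (1 / 2 : ℝ) :=
        Real.rpow_le_rpow (by linarith) (by linarith) (by norm_num)
      have h0 : 0 ≤ (b - u) ^ (1 / 2 : ℝ) := Real.rpow_nonneg (by linarith) _
      gcongr
    calc (k + 1 : ℝ) * |∫ u in s..b, ∫ w, ψ (x + w - f u) * M P W ψ f b k u (x + w)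
        ∂(gaussianReal 0 (u - s).toNNReal)| ≤ (k + 1 : ℝ) * (((∫ z, |ψ z|) *
          ((k.factorial : ℝ) * ((∫ z, |ψ z|) * (b - s) ^ (1 / 2 : ℝ)) ^ k)) *
          (b - s) ^ (1 / 2 : ℝ)) := by gcongr
      _ = _ := by
        rw [Nat.factorial_succ]
        push_cast
        ring

/-- the standing data for the difference estimates -/
structure Bump (φ : ℝ → ℝ) (N : ℝ) : Prop where
  cont : Continuous φ
  nonneg : ∀ z, 0 ≤ φ z
  le_one : ∀ z, φ z ≤ 1
  integrable : Integrable φ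
  integral : ∫ z, φ z = N

theorem Bump.abs_le {φ : ℝ → ℝ} {N : ℝ} (h : Bump φ N) (z : ℝ) : |φ z| ≤ 1 := by
  rw [abs_of_nonneg (h.nonneg z)]; exact h.le_one z

theorem Bump.int_abs {φ : ℝ → ℝ} {N : ℝ} (h : Bump φ N) : ∫ z, |φ z| = N := by
  rw [← h.integral]
  congr 1
  ext z
  exact abs_of_nonneg (h.nonneg z)

theorem Bump.N_nonneg {φ : ℝ → ℝ} {N : ℝ} (h : Bump φ N) : 0 ≤ N := by
  rw [← h.integral]
  exact integral_nonneg h.nonneg

/-- the difference of the bump and its translate -/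
def dif (φ : ℝ → ℝ) (h z : ℝ) : ℝ := φ z - φ (z - h)

theorem dif_cont {φ : ℝ → ℝ} (hφ : Continuous φ) (h : ℝ) : Continuous (dif φ h) := by
  unfold dif
  fun_prop

theorem dif_abs {φ : ℝ → ℝ} {N : ℝ} (hφ : Bump φ N) (h z : ℝ) : |dif φ h z| ≤ 1 := by
  unfold dif
  rw [abs_le]
  constructor
  · linarith [hφ.nonneg z, hφ.le_one (z - h)]
  · linarith [hφ.le_one z, hφ.nonneg (z - h)]

theorem dif_integrable {φ : ℝ → ℝ} {N : ℝ} (hφ : Bump φ N) (h : ℝ) : Integrable (dif φ h) :=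
  hφ.integrable.sub (hφ.integrable.comp_sub_right h)

theorem dif_int {φ : ℝ → ℝ} {N : ℝ} (hφ : Bump φ N) (h : ℝ) : ∫ z, |dif φ h z| ≤ 2 * N := by
  have h1 : ∫ z, |dif φ h z| ≤ ∫ z, (φ z + φ (z - h)) := by
    apply integral_mono (dif_integrable hφ h).abs
      (hφ.integrable.add (hφ.integrable.comp_sub_right h))
    intro z
    show |φ z - φ (z - h)| ≤ φ z + φ (z - h)
    rw [abs_le]
    constructor
    · linarith [hφ.nonneg z, hφ.nonneg (z - h)]
    · linarith [hφ.nonneg z, hφ.nonneg (z - h)]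
  rw [integral_add hφ.integrable (hφ.integrable.comp_sub_right h),
    integral_sub_right_eq_self φ h, hφ.integral] at h1
  linarith

theorem M1_bound {W : ℝ → Ω → ℝ} {P : Measure Ω} [IsProbabilityMeasure P] (hW : Nice W P)
    {φ f : ℝ → ℝ} {N h : ℝ} (hφ : Bump φ N) (hf : Continuous f) (hh : 0 ≤ h)
    {b s : ℝ} (hs : 0 ≤ s) (hsb : s ≤ b) (hb : b ≤ 1) (x : ℝ) :
    |M P W (dif φ h) f b 1 s x| ≤ 4 * N * h ^ (3 / 4 : ℝ) := by
  have hN := hφ.N_nonneg
  have hh' : 0 ≤ h ^ (3 / 4 : ℝ) := Real.rpow_nonneg hh _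
  have h0 := M_recursion hW (dif_cont hφ.cont h) hf (dif_abs hφ h) hs hsb 0 x
  simp only [M_zero, Nat.cast_zero, zero_add, one_mul] at h0
  rw [h0]
  have h1 := time_bound (s := s) (b := b) (c1 := 0) (c2 := N * h ^ (3 / 4 : ℝ)) hsb (by linarith)
    le_rfl (by positivity) (g := fun u => ∫ w, dif φ h (x + w - f u) * 1
        ∂(gaussianReal 0 (u - s).toNNReal)) ?_
  · refine h1.trans (le_of_eq ?_)
    ring
  · intro u hu _
    have := K3 (sub_pos.mpr hu) hh hφ.integrable hφ.cont hφ.abs_le (G := fun _ => (1 : ℝ))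
      measurable_const (A := 1) (O := 0) (by simp) (by simp) x (f u)
    rw [hφ.int_abs] at this
    unfold dif
    refine this.trans (le_of_eq ?_)
    ring

theorem M2_bound {W : ℝ → Ω → ℝ} {P : Measure Ω} [IsProbabilityMeasure P] (hW : Nice W P)
    {φ f : ℝ → ℝ} {N h : ℝ} (hφ : Bump φ N) (hf : Continuous f) (hh : 0 ≤ h)
    {b s : ℝ} (hs : 0 ≤ s) (hsb : s ≤ b) (hb : b ≤ 1) (x : ℝ) :
    |M P W (dif φ h) f b 2 s x| ≤ 16 * N ^ 2 * h ^ (3 / 4 : ℝ) := by
  have hN := hφ.N_nonneg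
  have hh' : 0 ≤ h ^ (3 / 4 : ℝ) := Real.rpow_nonneg hh _
  have h0 := M_recursion hW (dif_cont hφ.cont h) hf (dif_abs hφ h) hs hsb 1 x
  rw [h0]
  have h1 := time_bound_half (s := s) (b := b) (c := 2 * N * (4 * N * h ^ (3 / 4 : ℝ))) hsb
    (by positivity) (g := fun u => ∫ w, dif φ h (x + w - f u) * M P W (dif φ h) f b 1 u (x + w)
        ∂(gaussianReal 0 (u - s).toNNReal)) ?_
  · have h2 : (b - s) ^ (1 / 2 : ℝ) ≤ 1 :=
      Real.rpow_le_one (by linarith) (by linarith) (by norm_num)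
    rw [abs_mul]
    have h3 : |((1 : ℕ) : ℝ) + 1| = 2 := by norm_num
    rw [h3]
    have h4 : 2 * N * (4 * N * h ^ (3 / 4 : ℝ)) * (b - s) ^ (1 / 2 : ℝ) ≤
        2 * N * (4 * N * h ^ (3 / 4 : ℝ)) * 1 := by gcongr
    linarith [h1.trans h4]
  · intro u hu hub
    refine (K1 (sub_pos.mpr hu) (dif_integrable hφ h)
      (M1_bound hW hφ hf hh (hs.trans hu.le) hub hb) x (f u)).trans ?_
    have h5 := dif_int hφ h
    have h6 : 0 ≤ (u - s) ^ (-(1 / 2) : ℝ) := Real.rpow_nonneg (by linarith) _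
    gcongr

theorem M2_diff {W : ℝ → Ω → ℝ} {P : Measure Ω} [IsProbabilityMeasure P] (hW : Nice W P)
    {φ f : ℝ → ℝ} {N h : ℝ} (hφ : Bump φ N) (hf : Continuous f) (hh : 0 ≤ h)
    {b s : ℝ} (hs : 0 ≤ s) (hsb : s ≤ b) (hb : b ≤ 1) (x : ℝ) :
    |M P W (dif φ h) f b 2 s x - M P W (dif φ h) f b 2 s (x + h)| ≤
      64 * N ^ 2 * h ^ (3 / 2 : ℝ) := by
  have hN := hφ.N_nonneg
  have hh' : 0 ≤ h ^ (3 / 4 : ℝ) := Real.rpow_nonneg hh _
  have hhh : h ^ (3 / 4 : ℝ) * h ^ (3 / 4 : ℝ) = h ^ (3 / 2 : ℝ) := by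
    rw [← Real.rpow_add_of_nonneg hh (by norm_num) (by norm_num)]
    norm_num
  have h0 := M_recursion hW (dif_cont hφ.cont h) hf (dif_abs hφ h) hs hsb 1 x
  have h0' := M_recursion hW (dif_cont hφ.cont h) hf (dif_abs hφ h) hs hsb 1 (x + h)
  have i0 := M_inner_intble hW (dif_cont hφ.cont h) hf (dif_abs hφ h) hs hsb 1 x
  have i0' := M_inner_intble hW (dif_cont hφ.cont h) hf (dif_abs hφ h) hs hsb 1 (x + h)
  rw [h0, h0', ← mul_sub, ← intervalIntegral.integral_sub i0 i0']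
  have h1 := time_bound (s := s) (b := b) (c1 := 0)
    (c2 := 2 * N * (4 * N * h ^ (3 / 4 : ℝ)) * h ^ (3 / 4 : ℝ)) hsb (by linarith)
    le_rfl (by positivity) (g := fun u =>
      (∫ w, dif φ h (x + w - f u) * M P W (dif φ h) f b 1 u (x + w)
        ∂(gaussianReal 0 (u - s).toNNReal)) -
      (∫ w, dif φ h (x + h + w - f u) * M P W (dif φ h) f b 1 u (x + h + w)
        ∂(gaussianReal 0 (u - s).toNNReal))) ?_
  · rw [abs_mul]
    have h3 : |((1 : ℕ) : ℝ) + 1| = 2 := by norm_num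
    rw [h3]
    have e : 64 * N ^ 2 * h ^ (3 / 2 : ℝ) =
      2 * (0 + 4 * (2 * N * (4 * N * h ^ (3 / 4 : ℝ)) * h ^ (3 / 4 : ℝ))) := by
      rw [← hhh]; ring
    rw [e]
    gcongr
  · intro u hu hub
    refine (K2 (sub_pos.mpr hu) hh (dif_integrable hφ h) (dif_cont hφ.cont h) (dif_abs hφ h)
      (M_meas hW (dif_cont hφ.cont h) hf hub 1)
      (M1_bound hW hφ hf hh (hs.trans hu.le) hub hb) x (f u)).trans ?_
    have h5 := dif_int hφ h
    have h6 : 0 ≤ (u - s) ^ (-(7 / 8) : ℝ) := Real.rpow_nonneg (by linarith) _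
    have h7 : (∫ z, |dif φ h z|) * (4 * N * h ^ (3 / 4 : ℝ)) *
        (1 / 2 * (u - s) ^ (-(7 / 8) : ℝ) * h ^ (3 / 4 : ℝ)) ≤ 2 * N * (4 * N * h ^ (3 / 4 : ℝ)) *
        (1 / 2 * (u - s) ^ (-(7 / 8) : ℝ) * h ^ (3 / 4 : ℝ)) := by gcongr
    refine h7.trans (le_of_eq ?_)
    ring

theorem M3_bound {W : ℝ → Ω → ℝ} {P : Measure Ω} [IsProbabilityMeasure P] (hW : Nice W P)
    {φ f : ℝ → ℝ} {N h : ℝ} (hφ : Bump φ N) (hf : Continuous f) (hh : 0 ≤ h)
    {b s : ℝ} (hs : 0 ≤ s) (hsb : s ≤ b) (hb : b ≤ 1) (x : ℝ) :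
    |M P W (dif φ h) f b 3 s x| ≤ 384 * N ^ 3 * h ^ (3 / 2 : ℝ) := by
  have hN := hφ.N_nonneg
  have hh' : 0 ≤ h ^ (3 / 4 : ℝ) := Real.rpow_nonneg hh _
  have hh2 : 0 ≤ h ^ (3 / 2 : ℝ) := Real.rpow_nonneg hh _
  have hhh : h ^ (3 / 4 : ℝ) * h ^ (3 / 4 : ℝ) = h ^ (3 / 2 : ℝ) := by
    rw [← Real.rpow_add_of_nonneg hh (by norm_num) (by norm_num)]
    norm_num
  have h0 := M_recursion hW (dif_cont hφ.cont h) hf (dif_abs hφ h) hs hsb 2 x
  rw [h0]
  have h1 := time_bound (s := s) (b := b) (c1 := N * (64 * N ^ 2 * h ^ (3 / 2 : ℝ)))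
    (c2 := N * (16 * N ^ 2 * h ^ (3 / 4 : ℝ)) * h ^ (3 / 4 : ℝ)) hsb (by linarith)
    (by positivity) (by positivity)
    (g := fun u => ∫ w, dif φ h (x + w - f u) * M P W (dif φ h) f b 2 u (x + w)
        ∂(gaussianReal 0 (u - s).toNNReal)) ?_
  · rw [abs_mul]
    have h3 : |((2 : ℕ) : ℝ) + 1| = 3 := by norm_num
    rw [h3]
    have e : 384 * N ^ 3 * h ^ (3 / 2 : ℝ) =
      3 * (N * (64 * N ^ 2 * h ^ (3 / 2 : ℝ)) +
        4 * (N * (16 * N ^ 2 * h ^ (3 / 4 : ℝ)) * h ^ (3 / 4 : ℝ))) := by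
      rw [← hhh]; ring
    rw [e]
    gcongr
  · intro u hu hub
    have := K3 (sub_pos.mpr hu) hh hφ.integrable hφ.cont hφ.abs_le
      (M_meas hW (dif_cont hφ.cont h) hf hub 2)
      (M2_bound hW hφ hf hh (hs.trans hu.le) hub hb)
      (M2_diff hW hφ hf hh (hs.trans hu.le) hub hb) x (f u)
    rw [hφ.int_abs] at this
    refine this.trans (le_of_eq ?_)
    ring

theorem M4_bound {W : ℝ → Ω → ℝ} {P : Measure Ω} [IsProbabilityMeasure P] (hW : Nice W P)
    {φ f : ℝ → ℝ} {N h : ℝ} (hφ : Bump φ N) (hf : Continuous f) (hh : 0 ≤ h)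
    {b s : ℝ} (hs : 0 ≤ s) (hsb : s ≤ b) (hb : b ≤ 1) (x : ℝ) :
    |M P W (dif φ h) f b 4 s x| ≤ 3072 * N ^ 4 * h ^ (3 / 2 : ℝ) := by
  have hN := hφ.N_nonneg
  have hh' : 0 ≤ h ^ (3 / 2 : ℝ) := Real.rpow_nonneg hh _
  have h0 := M_recursion hW (dif_cont hφ.cont h) hf (dif_abs hφ h) hs hsb 3 x
  rw [h0]
  have h1 := time_bound_half (s := s) (b := b) (c := 2 * N * (384 * N ^ 3 * h ^ (3 / 2 : ℝ))) hsb
    (by positivity) (g := fun u => ∫ w, dif φ h (x + w - f u) * M P W (dif φ h) f b 3 u (x + w)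
        ∂(gaussianReal 0 (u - s).toNNReal)) ?_
  · have h2 : (b - s) ^ (1 / 2 : ℝ) ≤ 1 :=
      Real.rpow_le_one (by linarith) (by linarith) (by norm_num)
    rw [abs_mul]
    have h3 : |((3 : ℕ) : ℝ) + 1| = 4 := by norm_num
    rw [h3]
    have h4 : 2 * N * (384 * N ^ 3 * h ^ (3 / 2 : ℝ)) * (b - s) ^ (1 / 2 : ℝ) ≤
        2 * N * (384 * N ^ 3 * h ^ (3 / 2 : ℝ)) * 1 := by gcongr
    linarith [h1.trans h4]
  · intro u hu hub
    refine (K1 (sub_pos.mpr hu) (dif_integrable hφ h)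
      (M3_bound hW hφ hf hh (hs.trans hu.le) hub hb) x (f u)).trans ?_
    have h5 := dif_int hφ h
    have h6 : 0 ≤ (u - s) ^ (-(1 / 2) : ℝ) := Real.rpow_nonneg (by linarith) _
    gcongr

end Pool.Agent.Helper14.BM
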