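import Mathlib
import Pool.Agent.Helper14.BM.Moments

/-!
# Hat functions
-/

open MeasureTheory ProbabilityTheory Set Filter
open scoped NNReal ENNReal Topology

namespace Pool.Agent.Helper14.BM

/-- the hat function -/
noncomputable def hat (z : ℝ) : ℝ := max 0 (1 - |z|)

theorem hat_cont : Continuous hat := by
  unfold hat
  fun_prop

theorem hat_nonneg (z : ℝ) : 0 ≤ hat z := le_max_left _ _

theorem hat_le_one (z : ℝ) : hat z ≤ 1 := by
  unfold hat
  apply max_le (by norm_num)
  linarith [abs_nonneg z]

theorem hat_eq_zero {z : ℝ} (h : 1 ≤ |z|) : hat z = 0 := by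
  unfold hat
  exact max_eq_left (by linarith)

theorem hat_eq {z : ℝ} (h : |z| ≤ 1) : hat z = 1 - |z| := by
  unfold hat
  exact max_eq_right (by linarith)

theorem hat_ne_zero {z : ℝ} (h : hat z ≠ 0) : |z| < 1 := by
  by_contra hc
  exact h (hat_eq_zero (not_lt.mp hc))

theorem hat_pos {z : ℝ} (h : |z| < 1) : 0 < hat z := by
  rw [hat_eq h.le]; linarith

theorem hat_refine (z : ℝ) : hat z = 1 / 2 * hat (2 * z + 1) + hat (2 * z) +
    1 / 2 * hat (2 * z - 1) := by
  rcases le_total z 0 with h0 | h0
  · rcases le_total z (-1) with h1 | h1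
    · rw [hat_eq_zero, hat_eq_zero, hat_eq_zero, hat_eq_zero]
      · ring
      all_goals rw [le_abs]; right; linarith
    · rcases le_total z (-1 / 2) with h2 | h2
      · rw [hat_eq (z := z) (by rw [abs_le]; constructor <;> linarith),
          hat_eq (z := 2 * z + 1) (by rw [abs_le]; constructor <;> linarith),
          hat_eq_zero (z := 2 * z) (by rw [le_abs]; right; linarith),
          hat_eq_zero (z := 2 * z - 1) (by rw [le_abs]; right; linarith),
          abs_of_nonpos h0, abs_of_nonpos (by linarith)]
        ring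
      · rw [hat_eq (z := z) (by rw [abs_le]; constructor <;> linarith),
          hat_eq (z := 2 * z + 1) (by rw [abs_le]; constructor <;> linarith),
          hat_eq (z := 2 * z) (by rw [abs_le]; constructor <;> linarith),
          hat_eq_zero (z := 2 * z - 1) (by rw [le_abs]; right; linarith),
          abs_of_nonpos h0, abs_of_nonneg (by linarith : 0 ≤ 2 * z + 1),
          abs_of_nonpos (by linarith)]
        ring
  · rcases le_total z 1 with h1 | h1
    · rcases le_total z (1 / 2) with h2 | h2
      · rw [hat_eq (z := z) (by rw [abs_le]; constructor <;> linarith),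
          hat_eq (z := 2 * z - 1) (by rw [abs_le]; constructor <;> linarith),
          hat_eq (z := 2 * z) (by rw [abs_le]; constructor <;> linarith),
          hat_eq_zero (z := 2 * z + 1) (by rw [le_abs]; left; linarith),
          abs_of_nonneg h0, abs_of_nonpos (by linarith : 2 * z - 1 ≤ 0),
          abs_of_nonneg (by linarith)]
        ring
      · rw [hat_eq (z := z) (by rw [abs_le]; constructor <;> linarith),
          hat_eq (z := 2 * z - 1) (by rw [abs_le]; constructor <;> linarith),
          hat_eq_zero (z := 2 * z) (by rw [le_abs]; left; linarith),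
          hat_eq_zero (z := 2 * z + 1) (by rw [le_abs]; left; linarith),
          abs_of_nonneg h0, abs_of_nonneg (by linarith : 0 ≤ 2 * z - 1)]
        ring
    · rw [hat_eq_zero, hat_eq_zero, hat_eq_zero, hat_eq_zero]
      · ring
      all_goals rw [le_abs]; left; linarith

theorem hat_add {z : ℝ} (h0 : 0 ≤ z) (h1 : z ≤ 1) : hat z + hat (z - 1) = 1 := by
  rw [hat_eq (by rw [abs_le]; constructor <;> linarith),
    hat_eq (by rw [abs_le]; constructor <;> linarith), abs_of_nonneg h0,
    abs_of_nonpos (by linarith)]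
  ring

theorem hat_support : Function.support hat ⊆ Icc (-1) 1 := by
  intro z hz
  have := hat_ne_zero hz
  rw [abs_lt] at this
  exact ⟨this.1.le, this.2.le⟩

theorem hat_integrable : Integrable hat := by
  apply hat_cont.integrable_of_hasCompactSupport
  exact HasCompactSupport.of_support_subset_isCompact isCompact_Icc hat_support

theorem hat_integral : ∫ z, hat z = 1 := by
  have h1 : ∫ z, hat z = ∫ z in Icc (-1 : ℝ) 1, hat z := by
    rw [setIntegral_eq_integral_of_forall_compl_eq_zero]
    intro z hz
    by_contra h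
    exact hz (hat_support h)
  rw [h1, integral_Icc_eq_integral_Ioc,
    ← intervalIntegral.integral_of_le (by norm_num : (-1 : ℝ) ≤ 1),
    ← intervalIntegral.integral_add_adjacent_intervals (b := 0)
      (hat_cont.intervalIntegrable _ _) (hat_cont.intervalIntegrable _ _)]
  have h2 : ∫ z in (-1 : ℝ)..0, hat z = ∫ z in (-1 : ℝ)..0, (1 + z) := by
    apply intervalIntegral.integral_congr
    intro z hz
    rw [uIcc_of_le (by norm_num)] at hz
    rw [hat_eq (by rw [abs_le]; constructor <;> linarith [hz.1, hz.2]), abs_of_nonpos hz.2]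
    ring
  have h3 : ∫ z in (0 : ℝ)..1, hat z = ∫ z in (0 : ℝ)..1, (1 - z) := by
    apply intervalIntegral.integral_congr
    intro z hz
    rw [uIcc_of_le (by norm_num)] at hz
    rw [hat_eq (by rw [abs_le]; constructor <;> linarith [hz.1, hz.2]), abs_of_nonneg hz.1]
  rw [h2, h3, intervalIntegral.integral_add (by simp) (by simp), intervalIntegral.integral_sub
    (by simp) (by simp), integral_id, integral_id, intervalIntegral.integral_const,
    intervalIntegral.integral_const]
  norm_num

/-- the dyadic hat functions -/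
noncomputable def phi (j : ℕ) (i : ℤ) (z : ℝ) : ℝ := hat (2 ^ j * z - i)

theorem phi_cont (j : ℕ) (i : ℤ) : Continuous (phi j i) := by
  unfold phi
  exact hat_cont.comp (by fun_prop)

theorem phi_bump (j : ℕ) (i : ℤ) : Bump (phi j i) ((1 / 2 : ℝ) ^ j) := by
  refine ⟨phi_cont j i, fun z => hat_nonneg _, fun z => hat_le_one _, ?_, ?_⟩
  · have := (hat_integrable.comp_sub_right (i : ℝ)).comp_mul_left' (R := (2 : ℝ) ^ j) (by positivity)
    exact this
  · have h1 := Measure.integral_comp_mul_left (fun z => hat (z - i)) ((2 : ℝ) ^ j)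
    unfold phi
    rw [h1, integral_sub_right_eq_self hat (i : ℝ), hat_integral]
    rw [abs_of_pos (by positivity)]
    simp

theorem phi_refine (j : ℕ) (i : ℤ) (z : ℝ) : phi j i z = 1 / 2 * phi (j + 1) (2 * i - 1) z +
    phi (j + 1) (2 * i) z + 1 / 2 * phi (j + 1) (2 * i + 1) z := by
  unfold phi
  have e1 : (2 : ℝ) ^ (j + 1) * z - ((2 * i - 1 : ℤ) : ℝ) = 2 * (2 ^ j * z - i) + 1 := by
    push_cast; ring
  have e2 : (2 : ℝ) ^ (j + 1) * z - ((2 * i : ℤ) : ℝ) = 2 * (2 ^ j * z - i) := by
    push_cast; ring
  have e3 : (2 : ℝ) ^ (j + 1) * z - ((2 * i + 1 : ℤ) : ℝ) = 2 * (2 ^ j * z - i) - 1 := by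
    push_cast; ring
  rw [e1, e2, e3]
  exact hat_refine _

theorem phi_dif (j : ℕ) (i : ℤ) (z : ℝ) :
    dif (phi j i) ((1 / 2 : ℝ) ^ j) z = phi j i z - phi j (i + 1) z := by
  unfold dif phi
  congr 2
  push_cast
  rw [mul_sub, ← mul_pow]
  norm_num
  ring

end Pool.Agent.Helper14.BM
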