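import Mathlib
import Pool.Agent.Helper14.BM.Hat

/-!
# Deterministic analysis of a path
-/

open MeasureTheory ProbabilityTheory Set Filter
open scoped NNReal ENNReal Topology

namespace Pool.Agent.Helper14.BM

/-- approximate local time of the path `X` at height `i / 2 ^ j` over the interval `[a, b]` -/
noncomputable def loc (X : ℝ → ℝ) (j : ℕ) (i : ℤ) (a b : ℝ) : ℝ :=
  2 ^ j * ∫ v in a..b, phi j i (X v)

theorem phiX_intble {X : ℝ → ℝ} (hX : Continuous X) (j : ℕ) (i : ℤ) (a b : ℝ) :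
    IntervalIntegrable (fun v => phi j i (X v)) volume a b :=
  ((phi_cont j i).comp hX).intervalIntegrable _ _

theorem loc_add {X : ℝ → ℝ} (hX : Continuous X) (j : ℕ) (i : ℤ) (a b c : ℝ) :
    loc X j i a b + loc X j i b c = loc X j i a c := by
  unfold loc
  rw [← mul_add, intervalIntegral.integral_add_adjacent_intervals (phiX_intble hX j i a b)
    (phiX_intble hX j i b c)]

theorem loc_nonneg {X : ℝ → ℝ} (j : ℕ) (i : ℤ) {a b : ℝ} (hab : a ≤ b) : 0 ≤ loc X j i a b := by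
  unfold loc
  have : 0 ≤ ∫ v in a..b, phi j i (X v) :=
    intervalIntegral.integral_nonneg hab fun v _ => hat_nonneg _
  positivity

theorem loc_self {X : ℝ → ℝ} (j : ℕ) (i : ℤ) (a : ℝ) : loc X j i a a = 0 := by
  simp [loc]

theorem loc_refine {X : ℝ → ℝ} (hX : Continuous X) (j : ℕ) (i : ℤ) (a b : ℝ) :
    loc X j i a b = 1 / 4 * loc X (j + 1) (2 * i - 1) a b + 1 / 2 * loc X (j + 1) (2 * i) a b +
      1 / 4 * loc X (j + 1) (2 * i + 1) a b := by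
  unfold loc
  have h : ∫ v in a..b, phi j i (X v) = 1 / 2 * (∫ v in a..b, phi (j + 1) (2 * i - 1) (X v)) +
      (∫ v in a..b, phi (j + 1) (2 * i) (X v)) +
      1 / 2 * ∫ v in a..b, phi (j + 1) (2 * i + 1) (X v) := by
    rw [← intervalIntegral.integral_const_mul, ← intervalIntegral.integral_const_mul,
      ← intervalIntegral.integral_add, ← intervalIntegral.integral_add]
    · congr 1
      ext v
      exact phi_refine j i (X v)
    · exact ((phiX_intble hX _ _ _ _).const_mul _).add (phiX_intble hX _ _ _ _)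
    · exact (phiX_intble hX _ _ _ _).const_mul _
    · exact (phiX_intble hX _ _ _ _).const_mul _
    · exact phiX_intble hX _ _ _ _
  rw [h]
  ring

theorem floor_step (j : ℕ) (y : ℝ) :
    ⌊(2 : ℝ) ^ (j + 1) * y⌋ = 2 * ⌊(2 : ℝ) ^ j * y⌋ ∨
      ⌊(2 : ℝ) ^ (j + 1) * y⌋ = 2 * ⌊(2 : ℝ) ^ j * y⌋ + 1 := by
  have h1 := Int.floor_le ((2 : ℝ) ^ j * y)
  have h2 := Int.lt_floor_add_one ((2 : ℝ) ^ j * y)
  have e : (2 : ℝ) ^ (j + 1) * y = 2 * ((2 : ℝ) ^ j * y) := by ring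
  have h3 : 2 * ⌊(2 : ℝ) ^ j * y⌋ ≤ ⌊(2 : ℝ) ^ (j + 1) * y⌋ := by
    rw [Int.le_floor, e]
    push_cast
    linarith
  have h4 : ⌊(2 : ℝ) ^ (j + 1) * y⌋ < 2 * ⌊(2 : ℝ) ^ j * y⌋ + 2 := by
    rw [Int.floor_lt, e]
    push_cast
    linarith
  omega

theorem loc_step {X : ℝ → ℝ} (hX : Continuous X) {j : ℕ} {a b δ : ℝ}
    (h : ∀ i : ℤ, |loc X (j + 1) i a b - loc X (j + 1) (i + 1) a b| ≤ δ) (y : ℝ) :
    |loc X j ⌊(2 : ℝ) ^ j * y⌋ a b - loc X (j + 1) ⌊(2 : ℝ) ^ (j + 1) * y⌋ a b| ≤ 2 * δ := by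
  set i := ⌊(2 : ℝ) ^ j * y⌋ with hi
  have h1 := h (2 * i - 1)
  rw [show (2 * i - 1 + 1 : ℤ) = 2 * i by ring] at h1
  have h2 := h (2 * i)
  have h0 := loc_refine hX j i a b
  rw [abs_le] at h1 h2 ⊢
  rcases floor_step j y with h3 | h3
  · rw [h3, ← hi, h0]
    constructor <;> linarith [h1.1, h1.2, h2.1, h2.2]
  · rw [h3, ← hi, h0]
    constructor <;> linarith [h1.1, h1.2, h2.1, h2.2]

theorem geom_chain2 {f : ℕ → ℝ} {C ρ : ℝ} (hρ : ρ < 1) {J : ℕ}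
    (h : ∀ j ≥ J, |f j - f (j + 1)| ≤ C * ρ ^ j) {j : ℕ} (hj : J ≤ j) {k : ℕ} (hk : j ≤ k) :
    |f j - f k| ≤ C * (ρ ^ j - ρ ^ k) / (1 - ρ) := by
  have h1 : 0 < 1 - ρ := by linarith
  induction k, hk using Nat.le_induction with
  | base => simp
  | succ k hk ih =>
    have h2 := h k (hj.trans hk)
    calc |f j - f (k + 1)| ≤ |f j - f k| + |f k - f (k + 1)| := by
          have := abs_add_le (f j - f k) (f k - f (k + 1))
          simpa using this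
      _ ≤ C * (ρ ^ j - ρ ^ k) / (1 - ρ) + C * ρ ^ k := add_le_add ih h2
      _ = C * (ρ ^ j - ρ ^ (k + 1)) / (1 - ρ) := by
          field_simp
          ring

theorem geom_chain2' {f : ℕ → ℝ} {C ρ : ℝ} (hC : 0 ≤ C) (hρ0 : 0 ≤ ρ) (hρ : ρ < 1) {J : ℕ}
    (h : ∀ j ≥ J, |f j - f (j + 1)| ≤ C * ρ ^ j) {j : ℕ} (hj : J ≤ j) {k : ℕ} (hk : j ≤ k) :
    |f j - f k| ≤ C * ρ ^ j / (1 - ρ) := by
  refine (geom_chain2 hρ h hj hk).trans ?_
  have h1 : 0 < 1 - ρ := by linarith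
  have h2 : 0 ≤ ρ ^ k := by positivity
  gcongr
  linarith

theorem geom_chain {f : ℕ → ℝ} {C ρ : ℝ} (hC : 0 ≤ C) (hρ0 : 0 ≤ ρ) (hρ : ρ < 1) {J : ℕ}
    (h : ∀ j ≥ J, |f j - f (j + 1)| ≤ C * ρ ^ j) :
    ∃ L, Tendsto f atTop (𝓝 L) ∧ ∀ j ≥ J, |f j - L| ≤ C * ρ ^ j / (1 - ρ) := by
  have h1 : 0 < 1 - ρ := by linarith
  have hlim : Tendsto (fun j : ℕ => C * ρ ^ j / (1 - ρ)) atTop (𝓝 0) := by
    have := ((tendsto_pow_atTop_nhds_zero_of_lt_one hρ0 hρ).const_mul C).div_const (1 - ρ)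
    simpa using this
  have hc : CauchySeq f := by
    rw [Metric.cauchySeq_iff']
    intro ε hε
    have h2 := (hlim.eventually_lt_const hε).and (eventually_ge_atTop J)
    obtain ⟨N, hN, hNJ⟩ := h2.exists
    refine ⟨N, fun n hn => ?_⟩
    rw [dist_comm, Real.dist_eq]
    exact (geom_chain2' hC hρ0 hρ h hNJ hn).trans_lt hN
  obtain ⟨L, hL⟩ := cauchySeq_tendsto_of_complete hc
  refine ⟨L, hL, fun j hj => ?_⟩
  have h3 : Tendsto (fun k => |f j - f k|) atTop (𝓝 |f j - L|) :=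
    (tendsto_const_nhds.sub hL).abs
  refine le_of_tendsto h3 ?_
  filter_upwards [eventually_ge_atTop j] with k hk
  exact geom_chain2' hC hρ0 hρ h hj hk

/-- the property of a path from which everything is deduced -/
structure Good (X : ℝ → ℝ) (ρ : ℝ) (J : ℕ) : Prop where
  cont : Continuous X
  pos : 0 < ρ
  eq : ρ ^ 16 = 1 / 2
  dyad : ∀ j ≥ J, ∀ n m : ℕ, 8 * n ≤ j → m < 2 ^ n → ∀ i : ℤ,
    |loc X j i ((m : ℝ) / 2 ^ n) (((m : ℝ) + 1) / 2 ^ n) -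
      loc X j (i + 1) ((m : ℝ) / 2 ^ n) (((m : ℝ) + 1) / 2 ^ n)| ≤ ρ ^ j

theorem Good.lt_one {X : ℝ → ℝ} {ρ : ℝ} {J : ℕ} (h : Good X ρ J) : ρ < 1 := by
  by_contra hc
  have h1 : 1 ≤ ρ ^ 16 := one_le_pow₀ (not_lt.mp hc)
  rw [h.eq] at h1
  norm_num at h1

theorem Good.unit {X : ℝ → ℝ} {ρ : ℝ} {J : ℕ} (h : Good X ρ J) {j : ℕ} (hj : J ≤ j) (i : ℤ) :
    |loc X j i 0 1 - loc X j (i + 1) 0 1| ≤ ρ ^ j := by
  have := h.dyad j hj 0 0 (by omega) (by norm_num) i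
  simpa using this

/-- the local time at height `y` -/
noncomputable def LT (X : ℝ → ℝ) (y : ℝ) : ℝ :=
  limsup (fun j : ℕ => loc X j ⌊(2 : ℝ) ^ j * y⌋ 0 1) atTop

theorem Good.chain {X : ℝ → ℝ} {ρ : ℝ} {J : ℕ} (h : Good X ρ J) {n m : ℕ} (hm : m < 2 ^ n)
    (y : ℝ) {j : ℕ} (hj : J ≤ j) (hj8 : 8 * n ≤ j) {k : ℕ} (hk : j ≤ k) :
    |loc X j ⌊(2 : ℝ) ^ j * y⌋ ((m : ℝ) / 2 ^ n) (((m : ℝ) + 1) / 2 ^ n) -
      loc X k ⌊(2 : ℝ) ^ k * y⌋ ((m : ℝ) / 2 ^ n) (((m : ℝ) + 1) / 2 ^ n)| ≤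
      2 * ρ ^ j / (1 - ρ) := by
  apply geom_chain2' (J := j) (f := fun j => loc X j ⌊(2 : ℝ) ^ j * y⌋ ((m : ℝ) / 2 ^ n)
    (((m : ℝ) + 1) / 2 ^ n)) (by norm_num) h.pos.le h.lt_one _ le_rfl hk
  intro l hl
  refine (loc_step h.cont (δ := ρ ^ (l + 1)) ?_ y).trans ?_
  · intro i
    exact h.dyad (l + 1) (by omega) n m (by omega) hm i
  · have := h.pos
    have h2 := h.lt_one.le
    exact mul_le_mul_of_nonneg_left (pow_le_pow_of_le_one this.le h2 (by omega)) (by norm_num)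

theorem Good.tendsto {X : ℝ → ℝ} {ρ : ℝ} {J : ℕ} (h : Good X ρ J) (y : ℝ) :
    Tendsto (fun j : ℕ => loc X j ⌊(2 : ℝ) ^ j * y⌋ 0 1) atTop (𝓝 (LT X y)) ∧
      ∀ j ≥ J, |loc X j ⌊(2 : ℝ) ^ j * y⌋ 0 1 - LT X y| ≤ 2 * ρ ^ j / (1 - ρ) := by
  have h0 : ∀ l ≥ J, |loc X l ⌊(2 : ℝ) ^ l * y⌋ 0 1 -
      loc X (l + 1) ⌊(2 : ℝ) ^ (l + 1) * y⌋ 0 1| ≤ 2 * ρ ^ l := by
    intro l hl
    refine (loc_step h.cont (δ := ρ ^ (l + 1)) ?_ y).trans ?_
    · intro i
      exact h.unit (by omega) i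
    · have := h.pos
      have h2 := h.lt_one.le
      exact mul_le_mul_of_nonneg_left (pow_le_pow_of_le_one this.le h2 (by omega)) (by norm_num)
  obtain ⟨L, hL1, hL2⟩ := geom_chain (f := fun j : ℕ => loc X j ⌊(2 : ℝ) ^ j * y⌋ 0 1)
    (by norm_num) h.pos.le h.lt_one h0
  have : LT X y = L := hL1.limsup_eq
  rw [this]
  exact ⟨hL1, hL2⟩

theorem Good.LT_nonneg {X : ℝ → ℝ} {ρ : ℝ} {J : ℕ} (h : Good X ρ J) (y : ℝ) : 0 ≤ LT X y := by
  refine ge_of_tendsto' (h.tendsto y).1 fun j => loc_nonneg _ _ (by norm_num)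

theorem floor_near {x x' : ℝ} (h1 : x ≤ x') (h2 : x' ≤ x + 1) : ⌊x'⌋ = ⌊x⌋ ∨ ⌊x'⌋ = ⌊x⌋ + 1 := by
  have h3 : ⌊x⌋ ≤ ⌊x'⌋ := Int.floor_le_floor h1
  have h4 : ⌊x'⌋ < ⌊x⌋ + 2 := by
    rw [Int.floor_lt]
    push_cast
    linarith [Int.lt_floor_add_one x]
  omega

theorem Good.LT_near {X : ℝ → ℝ} {ρ : ℝ} {J : ℕ} (h : Good X ρ J) {y y' : ℝ} {j : ℕ} (hj : J ≤ j)
    (h1 : y ≤ y') (h2 : 2 ^ j * y' ≤ 2 ^ j * y + 1) :
    |LT X y - LT X y'| ≤ 5 * ρ ^ j / (1 - ρ) := by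
  have hρ := h.pos
  have hρ1 : 0 < 1 - ρ := by linarith [h.lt_one]
  have e1 := (h.tendsto y).2 j hj
  have e2 := (h.tendsto y').2 j hj
  have e3 : |loc X j ⌊(2 : ℝ) ^ j * y⌋ 0 1 - loc X j ⌊(2 : ℝ) ^ j * y'⌋ 0 1| ≤
      ρ ^ j / (1 - ρ) := by
    have h4 : ρ ^ j ≤ ρ ^ j / (1 - ρ) := by
      rw [le_div_iff₀ hρ1]
      have : 0 ≤ ρ ^ j * ρ := by positivity
      nlinarith
    rcases floor_near (x := (2 : ℝ) ^ j * y) (x' := (2 : ℝ) ^ j * y') (by gcongr) h2 with h3 | h3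
    · rw [h3, sub_self, abs_zero]
      positivity
    · rw [h3]
      exact (h.unit hj _).trans h4
  have e4 : 5 * ρ ^ j / (1 - ρ) = 2 * ρ ^ j / (1 - ρ) + ρ ^ j / (1 - ρ) + 2 * ρ ^ j / (1 - ρ) := by
    ring
  rw [e4]
  rw [abs_le] at e1 e2 e3 ⊢
  constructor <;> linarith [e1.1, e1.2, e2.1, e2.2, e3.1, e3.2]

theorem Good.LT_cont {X : ℝ → ℝ} {ρ : ℝ} {J : ℕ} (h : Good X ρ J) : Continuous (LT X) := by
  have hρ := h.pos
  have hρ1 : 0 < 1 - ρ := by linarith [h.lt_one]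
  rw [Metric.continuous_iff]
  intro y ε hε
  have hlim : Tendsto (fun j : ℕ => 5 * ρ ^ j / (1 - ρ)) atTop (𝓝 0) := by
    have := ((tendsto_pow_atTop_nhds_zero_of_lt_one hρ.le h.lt_one).const_mul 5).div_const (1 - ρ)
    simpa using this
  obtain ⟨j, hj1, hj2⟩ := ((hlim.eventually_lt_const hε).and (eventually_ge_atTop J)).exists
  have h2j : (0 : ℝ) < 2 ^ j := by positivity
  refine ⟨1 / 2 ^ j, by positivity, fun y' hy' => ?_⟩
  rw [Real.dist_eq, abs_lt] at hy'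
  have k1 : 2 ^ j * (1 / 2 ^ j : ℝ) = 1 := by field_simp
  rw [Real.dist_eq]
  rcases le_total y y' with h1 | h1
  · rw [abs_sub_comm]
    refine (h.LT_near hj2 h1 ?_).trans_lt hj1
    have : 2 ^ j * y' ≤ 2 ^ j * (y + 1 / 2 ^ j) := by
      gcongr; linarith [hy'.2]
    rw [mul_add, k1] at this
    exact this
  · refine (h.LT_near hj2 h1 ?_).trans_lt hj1
    have : 2 ^ j * y ≤ 2 ^ j * (y' + 1 / 2 ^ j) := by
      gcongr; linarith [hy'.1]
    rw [mul_add, k1] at this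
    exact this

theorem phi_support {j : ℕ} {k : ℤ} {x : ℝ} (h : phi j k x ≠ 0) :
    k = ⌊(2 : ℝ) ^ j * x⌋ ∨ k = ⌊(2 : ℝ) ^ j * x⌋ + 1 := by
  have h1 := hat_ne_zero h
  rw [abs_lt] at h1
  have h2 := Int.floor_le ((2 : ℝ) ^ j * x)
  have h3 := Int.lt_floor_add_one ((2 : ℝ) ^ j * x)
  have h4 : (⌊(2 : ℝ) ^ j * x⌋ : ℝ) < k + 1 := by linarith
  have h5 : (k : ℝ) < ⌊(2 : ℝ) ^ j * x⌋ + 2 := by linarith
  have h6 : ⌊(2 : ℝ) ^ j * x⌋ < k + 1 := by exact_mod_cast h4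
  have h7 : k < ⌊(2 : ℝ) ^ j * x⌋ + 2 := by exact_mod_cast h5
  omega

theorem phi_sum (j : ℕ) (x : ℝ) :
    phi j ⌊(2 : ℝ) ^ j * x⌋ x + phi j (⌊(2 : ℝ) ^ j * x⌋ + 1) x = 1 := by
  unfold phi
  have h2 := Int.floor_le ((2 : ℝ) ^ j * x)
  have h3 := Int.lt_floor_add_one ((2 : ℝ) ^ j * x)
  have := hat_add (z := 2 ^ j * x - ⌊(2 : ℝ) ^ j * x⌋) (by linarith) (by linarith)
  rw [← this]
  congr 2
  push_cast
  ring

theorem Good.null {X : ℝ → ℝ} {ρ : ℝ} {J : ℕ} (h : Good X ρ J) :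
    volume {t ∈ Icc (0 : ℝ) 1 | LT X (X t) ≤ 0} = 0 := by
  have hρ := h.pos
  have hρ1 : 0 < 1 - ρ := by linarith [h.lt_one]
  set E := {t ∈ Icc (0 : ℝ) 1 | LT X (X t) ≤ 0} with hE
  have hEm : MeasurableSet E :=
    measurableSet_Icc.inter (measurableSet_le ((h.LT_cont.comp h.cont).measurable) measurable_const)
  have hEsub : E ⊆ Icc 0 1 := fun t ht => ht.1
  have hEfin : volume E ≠ ⊤ := by
    have h1 : volume E ≤ volume (Icc (0 : ℝ) 1) := measure_mono hEsub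
    exact ne_top_of_le_ne_top (by simp) h1
  obtain ⟨R, hR⟩ := isCompact_Icc.exists_bound_of_continuousOn (s := Icc (0 : ℝ) 1)
    h.cont.continuousOn
  have hR0 : 0 ≤ R := (norm_nonneg _).trans (hR 0 (by norm_num))
  -- the key estimate
  have key : ∀ j ≥ J, volume.real E ≤ (2 * R + 5) * (3 * ρ ^ j / (1 - ρ)) := by
    intro j hj
    have h2j : (0 : ℝ) < 2 ^ j := by positivity
    have h2j1 : (1 : ℝ) ≤ 2 ^ j := one_le_pow₀ (by norm_num)
    set η := 3 * ρ ^ j / (1 - ρ) with hη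
    have hη0 : 0 ≤ η := by positivity
    set K : ℤ := ⌈R * 2 ^ j⌉ + 1 with hK
    have hK1 : R * 2 ^ j ≤ K - 1 := by
      rw [hK]; push_cast; linarith [Int.le_ceil (R * 2 ^ j)]
    have hK2 : (K : ℝ) ≤ R * 2 ^ j + 2 := by
      rw [hK]; push_cast; linarith [Int.ceil_lt_add_one (R * 2 ^ j)]
    -- each piece
    have piece : ∀ k : ℤ, ∫ t in E, phi j k (X t) ≤ η / 2 ^ j := by
      intro k
      by_cases hk : loc X j k 0 1 ≤ η
      · have h3 : ∫ t in E, phi j k (X t) ≤ ∫ t in Icc 0 1, phi j k (X t) := by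
          apply setIntegral_mono_set
          · exact ((phi_cont j k).comp h.cont).continuousOn.integrableOn_compact isCompact_Icc
          · exact Eventually.of_forall fun t => hat_nonneg _
          · exact hEsub.eventuallyLE
        rw [integral_Icc_eq_integral_Ioc, ← intervalIntegral.integral_of_le zero_le_one] at h3
        refine h3.trans ?_
        rw [le_div_iff₀ h2j, mul_comm]
        exact hk
      · have h3 : ∫ t in E, phi j k (X t) = 0 := by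
          apply setIntegral_eq_zero_of_forall_eq_zero
          intro t ht
          by_contra hne
          apply hk
          have h4 : LT X (X t) ≤ 0 := ht.2
          have h5 := (h.tendsto (X t)).2 j hj
          rw [abs_le] at h5
          have h6 : 2 * ρ ^ j / (1 - ρ) + ρ ^ j / (1 - ρ) = η := by rw [hη]; ring
          have h7 : ρ ^ j ≤ ρ ^ j / (1 - ρ) := by
            rw [le_div_iff₀ hρ1]
            have : 0 ≤ ρ ^ j * ρ := by positivity
            nlinarith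
          have h8 := h.unit hj ⌊(2 : ℝ) ^ j * X t⌋
          rw [abs_le] at h8
          have h9 : 0 ≤ ρ ^ j := by positivity
          rcases phi_support hne with h10 | h10
          · rw [h10]
            linarith [h5.2]
          · rw [h10]
            linarith [h5.2, h8.1]
        rw [h3]
        positivity
    -- sum over the pieces
    have hint : ∀ k : ℤ, IntegrableOn (fun t => phi j k (X t)) E := by
      intro k
      exact (((phi_cont j k).comp h.cont).continuousOn.integrableOn_compact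
        isCompact_Icc).mono_set hEsub
    have hsum : volume.real E ≤ ∑ k ∈ Finset.Icc (-K) K, ∫ t in E, phi j k (X t) := by
      rw [← integral_finset_sum _ (fun k _ => hint k)]
      have h11 : volume.real E = ∫ t in E, (1 : ℝ) := by simp
      rw [h11]
      apply setIntegral_mono_on (integrableOn_const hEfin)
        (integrable_finset_sum _ (fun k _ => hint k)) hEm
      intro t ht
      have h12 := hR t (hEsub ht)
      rw [Real.norm_eq_abs, abs_le] at h12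
      have h13 := Int.floor_le ((2 : ℝ) ^ j * X t)
      have h14 := Int.lt_floor_add_one ((2 : ℝ) ^ j * X t)
      have h15 : (2 : ℝ) ^ j * X t ≤ R * 2 ^ j := by nlinarith [h12.2]
      have h16 : -(R * 2 ^ j) ≤ (2 : ℝ) ^ j * X t := by nlinarith [h12.1]
      have h17 : (⌊(2 : ℝ) ^ j * X t⌋ : ℝ) + 1 ≤ K := by linarith
      have h18 : -(K : ℝ) ≤ (⌊(2 : ℝ) ^ j * X t⌋ : ℝ) := by linarith
      have h19 : ⌊(2 : ℝ) ^ j * X t⌋ + 1 ≤ K := by exact_mod_cast h17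
      have h20 : -K ≤ ⌊(2 : ℝ) ^ j * X t⌋ := by exact_mod_cast h18
      rw [← phi_sum j (X t)]
      have h21 : ∑ k ∈ ({⌊(2 : ℝ) ^ j * X t⌋, ⌊(2 : ℝ) ^ j * X t⌋ + 1} : Finset ℤ),
          phi j k (X t) = phi j ⌊(2 : ℝ) ^ j * X t⌋ (X t) +
            phi j (⌊(2 : ℝ) ^ j * X t⌋ + 1) (X t) := by
        rw [Finset.sum_pair (by omega)]
      rw [← h21]
      apply Finset.sum_le_sum_of_subset_of_nonneg
      · intro k hk
        rw [Finset.mem_insert, Finset.mem_singleton] at hk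
        rw [Finset.mem_Icc]
        omega
      · intro k _ _
        exact hat_nonneg _
    refine hsum.trans ?_
    refine (Finset.sum_le_sum (fun k _ => piece k)).trans ?_
    rw [Finset.sum_const, Int.card_Icc, nsmul_eq_mul]
    have hK3 : (0 : ℤ) ≤ K + 1 - -K := by
      have : (0 : ℝ) ≤ K := by nlinarith
      have : (0 : ℤ) ≤ K := by exact_mod_cast this
      omega
    have h22 : (((K + 1 - -K).toNat : ℕ) : ℝ) = 2 * K + 1 := by
      have : (((K + 1 - -K).toNat : ℤ) : ℝ) = ((K + 1 - -K : ℤ) : ℝ) := by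
        rw [Int.toNat_of_nonneg hK3]
      rw [Int.cast_natCast] at this
      rw [this]
      push_cast
      ring
    rw [h22]
    have h23 : (2 * K + 1 : ℝ) ≤ (2 * R + 5) * 2 ^ j := by nlinarith
    calc (2 * K + 1 : ℝ) * (η / 2 ^ j) ≤ ((2 * R + 5) * 2 ^ j) * (η / 2 ^ j) := by gcongr
      _ = (2 * R + 5) * η := by field_simp
  have hlim : Tendsto (fun j : ℕ => (2 * R + 5) * (3 * ρ ^ j / (1 - ρ))) atTop (𝓝 0) := by
    have := (((tendsto_pow_atTop_nhds_zero_of_lt_one hρ.le h.lt_one).const_mul 3).div_const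
      (1 - ρ)).const_mul (2 * R + 5)
    simpa using this
  have h24 : volume.real E ≤ 0 := by
    refine ge_of_tendsto hlim ?_
    filter_upwards [eventually_ge_atTop J] with j hj
    exact key j hj
  have h25 : volume.real E = 0 := le_antisymm h24 measureReal_nonneg
  exact (measureReal_eq_zero_iff hEfin).mp h25

end Pool.Agent.Helper14.BM
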