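import Mathlib
import Pool.Agent.Helper14.BM.Path

/-!
# Hausdorff dimension of the level sets of a good path
-/

open MeasureTheory ProbabilityTheory Set Filter
open scoped NNReal ENNReal Topology

namespace Pool.Agent.Helper14.BM

theorem dim_of_function {E : Set ℝ} (hE : IsClosed E) {F : ℝ → ℝ} {s : ℝ} (hs0 : 0 < s)
    {C : ℝ} (hF01 : F 0 < F 1)
    (hHol : ∀ t t', 0 ≤ t → t ≤ t' → t' ≤ 1 → |F t' - F t| ≤ C * (t' - t) ^ s)
    (hconst : ∀ t t', 0 ≤ t → t ≤ t' → t' ≤ 1 → (∀ v ∈ Icc t t', v ∉ E) → F t = F t') :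
    ENNReal.ofReal s ≤ dimH (E ∩ Icc 0 1) := by
  have hC0 : 0 ≤ C := by
    have := hHol 0 1 le_rfl zero_le_one le_rfl
    rw [sub_zero, Real.one_rpow, mul_one] at this
    exact (abs_nonneg _).trans this
  have hH : HolderOnWith C.toNNReal s.toNNReal F (Icc 0 1) := by
    intro x hx y hy
    have h1 : dist (F x) (F y) ≤ C * dist x y ^ s := by
      rcases le_total x y with h | h
      · rw [dist_comm, dist_comm x y, Real.dist_eq, Real.dist_eq, abs_of_nonneg (sub_nonneg.mpr h)]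
        exact hHol x y hx.1 h hy.2
      · rw [Real.dist_eq, Real.dist_eq, abs_of_nonneg (sub_nonneg.mpr h)]
        exact hHol y x hy.1 h hx.2
    rw [edist_dist, edist_dist, Real.coe_toNNReal _ hs0.le,
      ENNReal.ofReal_rpow_of_nonneg dist_nonneg hs0.le]
    have h2 : ((C.toNNReal : ℝ≥0) : ℝ≥0∞) = ENNReal.ofReal C := rfl
    rw [h2, ← ENNReal.ofReal_mul hC0]
    exact ENNReal.ofReal_le_ofReal h1
  have hcont : ContinuousOn F (Icc 0 1) := hH.continuousOn (by simpa using hs0)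
  have himg : Ioo (F 0) (F 1) ⊆ F '' (E ∩ Icc 0 1) := by
    intro c hc
    obtain ⟨t, ht, rfl⟩ := intermediate_value_Icc (zero_le_one) hcont ⟨hc.1.le, hc.2.le⟩
    have hSne : (E ∩ Icc t 1).Nonempty := by
      by_contra hne
      rw [not_nonempty_iff_eq_empty] at hne
      have := hconst t 1 ht.1 ht.2 le_rfl (fun v hv hvE => by
        have : v ∈ E ∩ Icc t 1 := ⟨hvE, hv⟩
        rw [hne] at this
        exact this)
      exact absurd this hc.2.ne
    have hScpt : IsCompact (E ∩ Icc t 1) := isCompact_Icc.inter_left hE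
    have hmem := hScpt.sInf_mem hSne
    set t' := sInf (E ∩ Icc t 1) with ht'
    have htt' : t ≤ t' := hmem.2.1
    have ht'1 : t' ≤ 1 := hmem.2.2
    refine ⟨t', ⟨hmem.1, ⟨ht.1.trans htt', ht'1⟩⟩, ?_⟩
    rcases htt'.eq_or_lt with h | h
    · rw [← h]
    have h3 : ∀ v, t ≤ v → v < t' → F t = F v := by
      intro v hv1 hv2
      apply hconst t v ht.1 hv1 (hv2.le.trans ht'1)
      intro u hu huE
      have : t' ≤ u := csInf_le hScpt.bddBelow ⟨huE, hu.1, hu.2.trans (hv2.le.trans ht'1)⟩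
      linarith [hu.2]
    have h4 : Tendsto (fun v => C * (t' - v) ^ s) (𝓝[<] t') (𝓝 0) := by
      have h5 : Continuous (fun v => C * (t' - v) ^ s) := by
        apply continuous_const.mul
        exact (continuous_const.sub continuous_id).rpow_const (fun _ => Or.inr hs0.le)
      have h6 := (h5.tendsto t').mono_left (nhdsWithin_le_nhds (s := Iio t'))
      simpa [Real.zero_rpow hs0.ne'] using h6
    have h7 : |F t' - F t| ≤ 0 := by
      refine ge_of_tendsto h4 ?_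
      filter_upwards [Ico_mem_nhdsLT h] with v hv
      rw [h3 v hv.1 hv.2]
      exact hHol v t' (ht.1.trans hv.1) hv.2.le ht'1
    have h8 := abs_nonpos_iff.mp h7
    linarith
  have hdim1 : dimH (Ioo (F 0) (F 1)) = 1 := by
    have := Real.dimH_of_nonempty_interior (E := ℝ) (s := Ioo (F 0) (F 1)) (by
      rw [interior_Ioo]
      exact nonempty_Ioo.mpr hF01)
    simpa using this
  have h9 : dimH (F '' (E ∩ Icc 0 1)) ≤ dimH (E ∩ Icc 0 1) / (s.toNNReal : ℝ≥0∞) :=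
    (hH.mono inter_subset_right).dimH_image_le (by simpa using hs0)
  have h10 : (1 : ℝ≥0∞) ≤ dimH (E ∩ Icc 0 1) / (s.toNNReal : ℝ≥0∞) := by
    rw [← hdim1]
    exact (dimH_mono himg).trans h9
  have h11 : (s.toNNReal : ℝ≥0∞) ≠ 0 := by
    simpa using hs0
  rw [ENNReal.le_div_iff_mul_le (Or.inl h11) (Or.inl ENNReal.coe_ne_top), one_mul] at h10
  exact h10

/-- dyadic Hölder estimates give Hölder estimates -/
theorem holder_of_dyadic {F : ℝ → ℝ} {s : ℝ} (hs0 : 0 < s) (hs1 : s ≤ 1) {C : ℝ} (hC : 0 ≤ C)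
    (hmono : ∀ t t', 0 ≤ t → t ≤ t' → t' ≤ 1 → F t ≤ F t')
    (hdy : ∀ n m : ℕ, m < 2 ^ n →
      F (((m : ℝ) + 1) / 2 ^ n) - F ((m : ℝ) / 2 ^ n) ≤ C * ((1 / 2 : ℝ) ^ n) ^ s) :
    ∀ t t', 0 ≤ t → t ≤ t' → t' ≤ 1 → |F t' - F t| ≤ (4 * C) * (t' - t) ^ s := by
  intro t t' h0 h1 h2
  rw [abs_of_nonneg (sub_nonneg.mpr (hmono t t' h0 h1 h2))]
  rcases h1.eq_or_lt with h | h
  · rw [h, sub_self, sub_self, Real.zero_rpow hs0.ne', mul_zero]
  obtain ⟨n, hn1, hn2⟩ := exists_nat_pow_near_of_lt_one (sub_pos.mpr h)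
    (by linarith : t' - t ≤ 1) (by norm_num : (0 : ℝ) < 1 / 2) (by norm_num)
  have h2n : (0 : ℝ) < 2 ^ n := by positivity
  have hpow : (1 / 2 : ℝ) ^ n = 1 / 2 ^ n := by rw [one_div_pow]
  -- clipped dyadic points
  have hcl : ∀ m : ℕ, F (min (((m : ℝ) + 1) / 2 ^ n) 1) - F (min ((m : ℝ) / 2 ^ n) 1) ≤
      C * ((1 / 2 : ℝ) ^ n) ^ s := by
    intro m
    by_cases hm : m < 2 ^ n
    · have hm1 : (m : ℝ) + 1 ≤ 2 ^ n := by exact_mod_cast hm
      have e1 : ((m : ℝ) + 1) / 2 ^ n ≤ 1 := by rw [div_le_one h2n]; exact hm1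
      have e2 : (m : ℝ) / 2 ^ n ≤ 1 := by rw [div_le_one h2n]; linarith
      rw [min_eq_left e1, min_eq_left e2]
      exact hdy n m hm
    · have hm1 : (2 : ℝ) ^ n ≤ m := by exact_mod_cast not_lt.mp hm
      have e1 : 1 ≤ ((m : ℝ) + 1) / 2 ^ n := by rw [one_le_div h2n]; linarith
      have e2 : 1 ≤ (m : ℝ) / 2 ^ n := by rw [one_le_div h2n]; exact hm1
      rw [min_eq_right e1, min_eq_right e2, sub_self]
      positivity
  set m := ⌊t * 2 ^ n⌋₊ with hm
  have hm1 : (m : ℝ) ≤ t * 2 ^ n := Nat.floor_le (by positivity)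
  have hm2 : t * 2 ^ n < m + 1 := Nat.lt_floor_add_one _
  have hm3 : (m : ℝ) / 2 ^ n ≤ t := by rw [div_le_iff₀ h2n]; exact hm1
  have hm4 : t' ≤ ((m : ℝ) + 1 + 1) / 2 ^ n := by
    rw [le_div_iff₀ h2n]
    have : (t' - t) * 2 ^ n ≤ 1 := by
      rw [hpow, le_div_iff₀ h2n] at hn2
      exact hn2
    linarith
  have k1 := hcl m
  have k2 := hcl (m + 1)
  push_cast at k2
  have k3 : F (min ((m : ℝ) / 2 ^ n) 1) ≤ F t := by
    apply hmono
    · positivity
    · exact (min_le_left _ _).trans hm3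
    · linarith
  have k4 : F t' ≤ F (min (((m : ℝ) + 1 + 1) / 2 ^ n) 1) := by
    apply hmono
    · linarith
    · exact le_min hm4 h2
    · exact min_le_right _ _
  have k5 : F t' - F t ≤ 2 * (C * ((1 / 2 : ℝ) ^ n) ^ s) := by linarith
  have k6 : ((1 / 2 : ℝ) ^ n) ^ s ≤ 2 * (t' - t) ^ s := by
    have e3 : (1 / 2 : ℝ) ^ n ≤ 2 * (t' - t) := by
      have : (1 / 2 : ℝ) ^ (n + 1) = (1 / 2) ^ n * (1 / 2) := pow_succ _ _
      rw [this] at hn1
      linarith
    have hpos : 0 ≤ (t' - t) ^ s := Real.rpow_nonneg (by linarith) _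
    calc ((1 / 2 : ℝ) ^ n) ^ s ≤ (2 * (t' - t)) ^ s :=
          Real.rpow_le_rpow (by positivity) e3 hs0.le
      _ = 2 ^ s * (t' - t) ^ s := Real.mul_rpow (by norm_num) (by linarith)
      _ ≤ 2 * (t' - t) ^ s := by
          have : (2 : ℝ) ^ s ≤ 2 := by
            calc (2 : ℝ) ^ s ≤ 2 ^ (1 : ℝ) := Real.rpow_le_rpow_of_exponent_le (by norm_num) hs1
              _ = 2 := by norm_num
          gcongr
  calc F t' - F t ≤ 2 * (C * ((1 / 2 : ℝ) ^ n) ^ s) := k5
    _ ≤ 2 * (C * (2 * (t' - t) ^ s)) := by gcongr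
    _ = (4 * C) * (t' - t) ^ s := by ring

theorem loc_mono {X : ℝ → ℝ} (hX : Continuous X) (j : ℕ) (i : ℤ) {a b c : ℝ} (hbc : b ≤ c) :
    loc X j i a b ≤ loc X j i a c := by
  rw [← loc_add hX j i a b c]
  linarith [loc_nonneg (X := X) j i hbc]

theorem Good.dim {X : ℝ → ℝ} {ρ : ℝ} {J : ℕ} (h : Good X ρ J) {s : ℝ} (hs0 : 0 < s)
    (hs1 : s ≤ 1 / 2) {N : ℕ}
    (hN : ∀ n ≥ N, ∀ m : ℕ, m < 2 ^ n → ∀ i : ℤ,
      loc X (8 * n) i ((m : ℝ) / 2 ^ n) (((m : ℝ) + 1) / 2 ^ n) ≤ ((1 / 2 : ℝ) ^ n) ^ s)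
    {y : ℝ} (hy : 0 < LT X y) :
    ENNReal.ofReal s ≤ dimH {t ∈ Icc (0 : ℝ) 1 | X t = y} := by
  have hρ := h.pos
  have hρ1 : 0 < 1 - ρ := by linarith [h.lt_one]
  set l : ℕ → ℝ → ℝ → ℝ := fun j a b => loc X j ⌊(2 : ℝ) ^ j * y⌋ a b with hl
  have hladd : ∀ j a b c, l j a b + l j b c = l j a c := fun j a b c => loc_add h.cont _ _ _ _ _
  have hl0 : ∀ j a b, a ≤ b → 0 ≤ l j a b := fun j a b hab => loc_nonneg _ _ hab
  have hu : (hyperfilter ℕ : Filter ℕ) ≤ atTop := Nat.hyperfilter_le_atTop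
  -- bound
  have hB : ∃ B, ∀ᶠ j in atTop, l j 0 1 ≤ B := by
    refine ⟨LT X y + 1, ?_⟩
    exact ((h.tendsto y).1.eventually_lt_const (lt_add_one _)).mono fun j hj => hj.le
  obtain ⟨B, hB⟩ := hB
  -- the limit
  have hF : ∀ t : ℝ, ∃ c : ℝ, t ∈ Icc (0 : ℝ) 1 →
      Tendsto (fun j => l j 0 t) (hyperfilter ℕ) (𝓝 c) := by
    intro t
    by_cases ht : t ∈ Icc (0 : ℝ) 1
    · have hmem : Icc 0 B ∈ ((hyperfilter ℕ).map (fun j => l j 0 t) : Ultrafilter ℝ) := by
        rw [Ultrafilter.mem_map]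
        have : ∀ᶠ j in (hyperfilter ℕ : Filter ℕ), l j 0 t ∈ Icc 0 B := by
          filter_upwards [hu hB] with j hj
          exact ⟨hl0 j 0 t ht.1, (loc_mono h.cont _ _ ht.2).trans hj⟩
        exact this
      obtain ⟨c, _, hc⟩ := isCompact_Icc.ultrafilter_le_nhds' _ hmem
      exact ⟨c, fun _ => hc⟩
    · exact ⟨0, fun h => absurd h ht⟩
  choose F hF using hF
  -- increments
  have hinc : ∀ t t', 0 ≤ t → t ≤ t' → t' ≤ 1 →
      Tendsto (fun j => l j t t') (hyperfilter ℕ) (𝓝 (F t' - F t)) := by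
    intro t t' h0 h1 h2
    have := (hF t' ⟨h0.trans h1, h2⟩).sub (hF t ⟨h0, h1.trans h2⟩)
    refine this.congr fun j => ?_
    have := hladd j 0 t t'
    linarith
  have hmono : ∀ t t', 0 ≤ t → t ≤ t' → t' ≤ 1 → F t ≤ F t' := by
    intro t t' h0 h1 h2
    have := ge_of_tendsto' (hinc t t' h0 h1 h2) (fun j => hl0 j t t' h1)
    linarith
  have hF1 : F 1 - F 0 = LT X y :=
    tendsto_nhds_unique (hinc 0 1 le_rfl zero_le_one le_rfl) ((h.tendsto y).1.mono_left hu)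
  -- a common threshold
  set N' := max N J with hN'
  set D : ℝ := 1 + 2 / (1 - ρ) with hD
  have hD1 : 1 ≤ D := by
    rw [hD]
    have : 0 ≤ 2 / (1 - ρ) := by positivity
    linarith
  have hlarge : ∀ n ≥ N', ∀ m : ℕ, m < 2 ^ n →
      F (((m : ℝ) + 1) / 2 ^ n) - F ((m : ℝ) / 2 ^ n) ≤ D * ((1 / 2 : ℝ) ^ n) ^ s := by
    intro n hn m hm
    have h2n : (0 : ℝ) < 2 ^ n := by positivity
    have hm1 : (m : ℝ) + 1 ≤ 2 ^ n := by exact_mod_cast hm
    have t1 := hinc ((m : ℝ) / 2 ^ n) (((m : ℝ) + 1) / 2 ^ n) (by positivity)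
      (by gcongr; linarith) (by rw [div_le_one h2n]; exact hm1)
    refine le_of_tendsto t1 ?_
    filter_upwards [hu (eventually_ge_atTop (8 * n))] with k hk
    have hJ : J ≤ 8 * n := by
      have : J ≤ n := (le_max_right N J).trans hn
      omega
    have h3 := h.chain hm y hJ le_rfl hk
    have h4 := hN n ((le_max_left N J).trans hn) m hm ⌊(2 : ℝ) ^ (8 * n) * y⌋
    rw [abs_le] at h3
    have h5 : ρ ^ (8 * n) ≤ ((1 / 2 : ℝ) ^ n) ^ s := by
      have e1 : ρ ^ (8 * n) = ((1 / 2 : ℝ) ^ n) ^ (1 / 2 : ℝ) := by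
        have e2 : (1 / 2 : ℝ) ^ n = (ρ ^ (8 * n)) ^ (2 : ℝ) := by
          rw [Real.rpow_two, ← pow_mul, ← h.eq, ← pow_mul]
          congr 1
          ring
        rw [e2, ← Real.rpow_mul (by positivity)]
        norm_num
      rw [e1]
      apply Real.rpow_le_rpow_of_exponent_ge (by positivity) _ hs1
      exact pow_le_one₀ (by norm_num) (by norm_num)
    have h6 : l k ((m : ℝ) / 2 ^ n) (((m : ℝ) + 1) / 2 ^ n) ≤
        ((1 / 2 : ℝ) ^ n) ^ s + 2 * ρ ^ (8 * n) / (1 - ρ) := by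
      simp only [hl]
      linarith [h3.1]
    refine h6.trans ?_
    have h7 : 2 * ρ ^ (8 * n) / (1 - ρ) ≤ 2 * ((1 / 2 : ℝ) ^ n) ^ s / (1 - ρ) := by gcongr
    rw [hD]
    have : (1 + 2 / (1 - ρ)) * ((1 / 2 : ℝ) ^ n) ^ s =
      ((1 / 2 : ℝ) ^ n) ^ s + 2 * ((1 / 2 : ℝ) ^ n) ^ s / (1 - ρ) := by ring
    rw [this]
    linarith
  set C : ℝ := max D (LT X y * 2 ^ N') with hCdef
  have hC0 : 0 ≤ C := by
    rw [hCdef]
    exact (by linarith : (0 : ℝ) ≤ D).trans (le_max_left _ _)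
  have hdy : ∀ n m : ℕ, m < 2 ^ n →
      F (((m : ℝ) + 1) / 2 ^ n) - F ((m : ℝ) / 2 ^ n) ≤ C * ((1 / 2 : ℝ) ^ n) ^ s := by
    intro n m hm
    have hpos : 0 ≤ ((1 / 2 : ℝ) ^ n) ^ s := Real.rpow_nonneg (by positivity) _
    by_cases hn : N' ≤ n
    · refine (hlarge n hn m hm).trans ?_
      rw [hCdef]
      gcongr
      exact le_max_left _ _
    · have hn' : n ≤ N' := by omega
      have h2n : (0 : ℝ) < 2 ^ n := by positivity
      have hm1 : (m : ℝ) + 1 ≤ 2 ^ n := by exact_mod_cast hm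
      have e1 : F (((m : ℝ) + 1) / 2 ^ n) ≤ F 1 :=
        hmono _ _ (by positivity) (by rw [div_le_one h2n]; exact hm1) le_rfl
      have e2 : F 0 ≤ F ((m : ℝ) / 2 ^ n) :=
        hmono _ _ le_rfl (by positivity) (by rw [div_le_one h2n]; linarith)
      have e3 : F (((m : ℝ) + 1) / 2 ^ n) - F ((m : ℝ) / 2 ^ n) ≤ LT X y := by linarith
      refine e3.trans ?_
      have e4 : (1 / 2 : ℝ) ^ N' ≤ ((1 / 2 : ℝ) ^ n) ^ s := by
        have e5 : (1 / 2 : ℝ) ^ N' ≤ (1 / 2 : ℝ) ^ n :=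
          pow_le_pow_of_le_one (by norm_num) (by norm_num) hn'
        refine e5.trans ?_
        have e6 : (1 / 2 : ℝ) ^ n = ((1 / 2 : ℝ) ^ n) ^ (1 : ℝ) := (Real.rpow_one _).symm
        rw [e6, ← Real.rpow_mul (by positivity), one_mul]
        apply Real.rpow_le_rpow_of_exponent_ge (by positivity) _ (by linarith)
        exact pow_le_one₀ (by norm_num) (by norm_num)
      calc LT X y = (LT X y * 2 ^ N') * (1 / 2 : ℝ) ^ N' := by
            rw [mul_assoc, ← mul_pow]; norm_num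
        _ ≤ C * ((1 / 2 : ℝ) ^ n) ^ s := by
            rw [hCdef]
            have := le_max_right D (LT X y * 2 ^ N')
            gcongr
  have hHol := holder_of_dyadic hs0 (by linarith) hC0 hmono hdy
  -- constancy
  have hconst : ∀ t t', 0 ≤ t → t ≤ t' → t' ≤ 1 → (∀ v ∈ Icc t t', v ∉ {v | X v = y}) →
      F t = F t' := by
    intro t t' h0 h1 h2 hv
    have t1 := hinc t t' h0 h1 h2
    -- distance from the level
    have hcont : ContinuousOn (fun v => |X v - y|) (Icc t t') :=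
      (h.cont.sub continuous_const).abs.continuousOn
    obtain ⟨v0, hv0, hmin⟩ := isCompact_Icc.exists_isMinOn ⟨t, left_mem_Icc.mpr h1⟩ hcont
    have hc : 0 < |X v0 - y| := by
      rw [abs_pos, sub_ne_zero]
      exact hv v0 hv0
    have hlim : Tendsto (fun j : ℕ => 2 * (1 / 2 : ℝ) ^ j) atTop (𝓝 0) := by
      have := (tendsto_pow_atTop_nhds_zero_of_lt_one (by norm_num : (0 : ℝ) ≤ 1 / 2)
        (by norm_num)).const_mul 2
      simpa using this
    have h3 : ∀ᶠ j in atTop, l j t t' = 0 := by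
      filter_upwards [hlim.eventually_lt_const hc] with j hj
      simp only [hl]
      unfold loc
      have h4 : ∫ v in t..t', phi j ⌊(2 : ℝ) ^ j * y⌋ (X v) = 0 := by
        rw [intervalIntegral.integral_of_le h1]
        apply setIntegral_eq_zero_of_forall_eq_zero
        intro v hvI
        by_contra hne
        have h5 : |X v0 - y| ≤ |X v - y| := hmin ⟨hvI.1.le, hvI.2⟩
        have h6 := hat_ne_zero hne
        have h7 := Int.floor_le ((2 : ℝ) ^ j * y)
        have h8 := Int.lt_floor_add_one ((2 : ℝ) ^ j * y)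
        rw [abs_lt] at h6
        have h9 : |2 ^ j * (X v - y)| < 2 := by
          rw [abs_lt]
          constructor <;> linarith [h6.1, h6.2]
        rw [abs_mul, abs_of_pos (by positivity : (0 : ℝ) < 2 ^ j)] at h9
        have h10 : |X v - y| < 2 * (1 / 2 : ℝ) ^ j := by
          rw [one_div_pow, mul_one_div, lt_div_iff₀ (by positivity)]
          linarith
        linarith
      rw [h4, mul_zero]
    have t2 : Tendsto (fun j => l j t t') (hyperfilter ℕ) (𝓝 0) := by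
      refine tendsto_const_nhds.congr' ?_
      filter_upwards [hu h3] with j hj
      exact hj.symm
    have := tendsto_nhds_unique t1 t2
    linarith
  have hclosed : IsClosed {v | X v = y} := isClosed_eq h.cont continuous_const
  have := dim_of_function hclosed hs0 (by linarith) hHol hconst
  refine this.trans (dimH_mono ?_)
  intro t ht
  exact ⟨ht.2, ht.1⟩

end Pool.Agent.Helper14.BM
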