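import Mathlib
import Pool.Agent.Helper14.BM.Dim

/-!
# Almost sure estimates
-/

open MeasureTheory ProbabilityTheory Set Filter
open scoped NNReal ENNReal Topology

namespace Pool.Agent.Helper14.BM

variable {Ω : Type*} [mΩ : MeasurableSpace Ω]

theorem integral_as_Z {W : ℝ → Ω → ℝ} {ψ f : ℝ → ℝ} (a b : ℝ) (ω : Ω) :
    ∫ v in a..b, ψ (W v ω - f v) = Z W ψ f b a (W a ω) ω := by
  unfold Z
  congr 1
  ext v
  congr 1
  ring

theorem integral_meas {W : ℝ → Ω → ℝ} {P : Measure Ω} (hW : Nice W P)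
    {ψ f : ℝ → ℝ} (hψ : Continuous ψ) (hf : Continuous f) {a b : ℝ} (hab : a ≤ b) :
    Measurable (fun ω => ∫ v in a..b, ψ (W v ω - f v)) := by
  simp only [integral_as_Z]
  exact (Z_meas hW hψ hf hab).comp ((hW.meas a).prodMk measurable_id)

theorem integral_bdd {W : ℝ → Ω → ℝ} {ψ f : ℝ → ℝ} {C : ℝ} (hC : ∀ z, |ψ z| ≤ C) {a b : ℝ}
    (hab : a ≤ b) (ω : Ω) : |∫ v in a..b, ψ (W v ω - f v)| ≤ C * (b - a) := by
  rw [integral_as_Z]
  exact Z_bound hC hab _ _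

theorem pow_meas_gen {Ω : Type*} [MeasurableSpace Ω] {g : ℝ × Ω → ℝ} (hg : Measurable g) (k : ℕ) :
    Measurable (fun p => g p ^ k) := hg.pow_const k

theorem moment_le {W : ℝ → Ω → ℝ} {P : Measure Ω} [IsProbabilityMeasure P] (hW : Nice W P)
    (hW0 : ∀ ω, W 0 ω = 0)
    {ψ f : ℝ → ℝ} (hψ : Continuous ψ) (hf : Continuous f) {C : ℝ} (hC : ∀ z, |ψ z| ≤ C)
    {a b : ℝ} (ha : 0 ≤ a) (hab : a ≤ b) (k : ℕ) {D : ℝ}
    (hD : ∀ x, |M P W ψ f b k a x| ≤ D) :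
    ∫ ω, (∫ v in a..b, ψ (W v ω - f v)) ^ k ∂P ≤ D := by
  have hF : @Measurable (ℝ × Ω) ℝ (@Prod.instMeasurableSpace _ _ _ (fut W a)) _
      (fun p => Z W ψ f b a p.1 p.2 ^ k) :=
    @pow_meas_gen Ω (fut W a) _ (Z_meas_fut hW hψ hf hab) k
  have hbd : ∀ p : ℝ × Ω, |Z W ψ f b a p.1 p.2 ^ k| ≤ (C * (b - a)) ^ k := by
    intro p
    rw [abs_pow]
    have h1 := Z_bound (W := W) (f := f) hC hab p.1 p.2
    gcongr
  have h1 := factor hW le_rfl ha hF hbd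
  have h2 : ∀ ω, (∫ v in a..b, ψ (W v ω - f v)) ^ k = Z W ψ f b a (W a ω - W 0 ω) ω ^ k := by
    intro ω
    rw [integral_as_Z, hW0, sub_zero]
  simp only [h2]
  simp only at h1
  rw [h1]
  have h3 : ∀ x, ∫ ω, Z W ψ f b a x ω ^ k ∂P ≤ D := fun x => (le_abs_self _).trans (hD x)
  have h4 : ∫ x, ∫ ω, Z W ψ f b a x ω ^ k ∂P ∂(gaussianReal 0 (a - 0).toNNReal) ≤
      ∫ _, D ∂(gaussianReal 0 (a - 0).toNNReal) := by
    apply integral_mono _ (integrable_const _) h3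
    refine Integrable.of_bound (C := D) ?_ (Eventually.of_forall fun x => ?_)
    · exact (M_meas hW hψ hf hab k).aestronglyMeasurable
    · rw [Real.norm_eq_abs]; exact hD x
  simpa using h4

theorem markov_even {P : Measure Ω} [IsProbabilityMeasure P] {Y : Ω → ℝ} (hY : Measurable Y)
    {B : ℝ} (hB : ∀ ω, |Y ω| ≤ B) {k : ℕ} (hk : Even k) {D ε : ℝ} (hε : 0 < ε)
    (hD : ∫ ω, Y ω ^ k ∂P ≤ D) : P.real {ω | ε < |Y ω|} ≤ D / ε ^ k := by
  have hint : Integrable (fun ω => Y ω ^ k) P := by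
    refine Integrable.of_bound (C := B ^ k) (hY.pow_const k).aestronglyMeasurable
      (Eventually.of_forall fun ω => ?_)
    rw [Real.norm_eq_abs, abs_pow]
    have := hB ω
    gcongr
  have h1 := mul_meas_ge_le_integral_of_nonneg
    (Eventually.of_forall fun ω => hk.pow_nonneg (Y ω)) hint (ε ^ k)
  have h2 : P.real {ω | ε < |Y ω|} ≤ P.real {ω | ε ^ k ≤ Y ω ^ k} := by
    apply measureReal_mono
    · intro ω hω
      have hω' : ε < |Y ω| := hω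
      show ε ^ k ≤ Y ω ^ k
      rw [← hk.pow_abs (Y ω)]
      gcongr
    · exact measure_ne_top _ _
  rw [le_div_iff₀ (by positivity)]
  have h3 : ε ^ k * P.real {ω | ε < |Y ω|} ≤ ε ^ k * P.real {ω | ε ^ k ≤ Y ω ^ k} := by gcongr
  linarith

theorem diff_prob {W : ℝ → Ω → ℝ} {P : Measure Ω} [IsProbabilityMeasure P] (hW : Nice W P)
    (hW0 : ∀ ω, W 0 ω = 0) {f : ℝ → ℝ} (hf : Continuous f) {ρ : ℝ} (hρ : 0 < ρ)
    (hρ16 : ρ ^ 16 = 1 / 2) {a b : ℝ} (ha : 0 ≤ a) (hab : a ≤ b) (hb : b ≤ 1) (j : ℕ) (i : ℤ) :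
    P.real {ω | ρ ^ j < |loc (fun t => W t ω - f t) j i a b -
      loc (fun t => W t ω - f t) j (i + 1) a b|} ≤ 3072 * ρ ^ (20 * j) := by
  have hφ := phi_bump j i
  have hh : (0 : ℝ) ≤ (1 / 2) ^ j := by positivity
  have h1 := moment_le hW hW0 (dif_cont hφ.cont ((1 / 2) ^ j)) hf (dif_abs hφ _) ha hab 4
    (M4_bound hW hφ hf hh ha hab hb)
  have h2 := markov_even (integral_meas hW (dif_cont hφ.cont ((1 / 2) ^ j)) hf hab)
    (integral_bdd (dif_abs hφ _) hab) (by decide : Even 4) (ε := ρ ^ j / 2 ^ j) (by positivity) h1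
  have h3 : {ω | ρ ^ j < |loc (fun t => W t ω - f t) j i a b -
      loc (fun t => W t ω - f t) j (i + 1) a b|} =
      {ω | ρ ^ j / 2 ^ j < |∫ v in a..b, dif (phi j i) ((1 / 2) ^ j) (W v ω - f v)|} := by
    ext ω
    simp only [mem_setOf_eq]
    have hc : Continuous (fun t => W t ω - f t) := (hW.cont ω).sub hf
    have h4 : loc (fun t => W t ω - f t) j i a b - loc (fun t => W t ω - f t) j (i + 1) a b =
        2 ^ j * ∫ v in a..b, dif (phi j i) ((1 / 2) ^ j) (W v ω - f v) := by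
      unfold loc
      rw [← mul_sub, ← intervalIntegral.integral_sub (phiX_intble hc _ _ _ _)
        (phiX_intble hc _ _ _ _)]
      congr 2
      ext v
      exact (phi_dif j i _).symm
    rw [h4, abs_mul, abs_of_pos (by positivity : (0 : ℝ) < 2 ^ j), div_lt_iff₀ (by positivity),
      mul_comm]
  rw [h3]
  refine h2.trans (le_of_eq ?_)
  have e1 : ((1 / 2 : ℝ) ^ j) ^ (3 / 2 : ℝ) = ρ ^ (24 * j) := by
    have : (1 / 2 : ℝ) ^ j = (ρ ^ j) ^ (16 : ℝ) := by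
      rw [← hρ16, ← pow_mul, ← Real.rpow_natCast, ← Real.rpow_natCast, ← Real.rpow_mul hρ.le]
      congr 1
      push_cast
      ring
    rw [this, ← Real.rpow_mul (by positivity), ← Real.rpow_natCast, ← Real.rpow_natCast,
      ← Real.rpow_mul hρ.le]
    congr 1
    push_cast
    ring
  rw [e1]
  have e2 : ((1 / 2 : ℝ) ^ j) ^ 4 * (2 ^ j) ^ 4 = 1 := by
    rw [← mul_pow, ← mul_pow]; norm_num
  have e3 : ρ ^ (24 * j) = ρ ^ (20 * j) * (ρ ^ j) ^ 4 := by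
    rw [← pow_mul, ← pow_add]
    congr 1
    ring
  rw [e3, div_pow (ρ ^ j) ((2 : ℝ) ^ j) 4, div_div_eq_mul_div, div_eq_iff (by positivity)]
  calc 3072 * ((1 / 2 : ℝ) ^ j) ^ 4 * (ρ ^ (20 * j) * (ρ ^ j) ^ 4) * (2 ^ j) ^ 4 =
      3072 * (ρ ^ (20 * j) * (ρ ^ j) ^ 4) * (((1 / 2 : ℝ) ^ j) ^ 4 * (2 ^ j) ^ 4) := by ring
    _ = 3072 * ρ ^ (20 * j) * (ρ ^ j) ^ 4 := by rw [e2]; ring

theorem base_prob {W : ℝ → Ω → ℝ} {P : Measure Ω} [IsProbabilityMeasure P] (hW : Nice W P)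
    (hW0 : ∀ ω, W 0 ω = 0) {f : ℝ → ℝ} (hf : Continuous f) {q : ℕ} (hq : 0 < q) {a b : ℝ}
    (ha : 0 ≤ a) (n : ℕ) (hab : b - a = (1 / 2) ^ n) (j : ℕ) (i : ℤ) :
    P.real {ω | ((1 / 2 : ℝ) ^ n) ^ (1 / 2 - 1 / q : ℝ) < loc (fun t => W t ω - f t) j i a b} ≤
      ((10 * q).factorial : ℝ) * (1 / 2) ^ (10 * n) := by
  have hφ := phi_bump j i
  have hab' : a ≤ b := by
    have : (0 : ℝ) ≤ (1 / 2) ^ n := by positivity
    linarith
  have hk : Even (10 * q) := (by decide : Even 10).mul_right q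
  set θ : ℝ := ((1 / 2 : ℝ) ^ n) ^ (1 / 2 - 1 / q : ℝ) with hθ
  have hθ0 : 0 < θ := by positivity
  have h1 := moment_le hW hW0 hφ.cont hf hφ.abs_le ha hab' (10 * q)
    (fun x => M_pos_bound hW hφ.cont hf hφ.abs_le hφ.integrable (10 * q) ha hab' x)
  rw [hφ.int_abs, hab] at h1
  have h2 := markov_even (integral_meas hW hφ.cont hf hab')
    (integral_bdd hφ.abs_le hab') hk (ε := θ / 2 ^ j) (by positivity) h1
  have h3 : {ω | θ < loc (fun t => W t ω - f t) j i a b} ⊆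
      {ω | θ / 2 ^ j < |∫ v in a..b, phi j i (W v ω - f v)|} := by
    intro ω hω
    have hω' : θ < loc (fun t => W t ω - f t) j i a b := hω
    show θ / 2 ^ j < |∫ v in a..b, phi j i (W v ω - f v)|
    unfold loc at hω'
    rw [div_lt_iff₀ (by positivity)]
    have := le_abs_self (∫ v in a..b, phi j i (W v ω - f v))
    have h2j : (0 : ℝ) < 2 ^ j := by positivity
    nlinarith
  refine (measureReal_mono h3 (measure_ne_top _ _)).trans (h2.trans (le_of_eq ?_))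
  have e2 : ((1 / 2 : ℝ) ^ j) ^ (10 * q) * (2 ^ j) ^ (10 * q) = 1 := by
    rw [← mul_pow, ← mul_pow]; norm_num
  have hx : (0 : ℝ) < (1 / 2) ^ n := by positivity
  have e3 : (((1 / 2 : ℝ) ^ n) ^ (1 / 2 : ℝ)) ^ (10 * q) =
      (1 / 2 : ℝ) ^ (10 * n) * θ ^ (10 * q) := by
    have hq' : (q : ℝ) ≠ 0 := by positivity
    have e4 : (1 / 2 : ℝ) ^ (10 * n) = ((1 / 2 : ℝ) ^ n) ^ (10 : ℝ) := by
      rw [mul_comm, pow_mul]
      norm_cast
    have gen : ∀ x : ℝ, 0 < x → (x ^ (1 / 2 : ℝ)) ^ (10 * q) =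
        x ^ (10 : ℝ) * (x ^ (1 / 2 - 1 / q : ℝ)) ^ (10 * q) := by
      intro x hx
      rw [← Real.rpow_natCast, ← Real.rpow_natCast, ← Real.rpow_mul hx.le,
        ← Real.rpow_mul hx.le, ← Real.rpow_add hx]
      congr 1
      push_cast
      field_simp
      ring
    rw [hθ, e4]
    exact gen _ hx
  rw [mul_pow, e3, div_pow θ ((2 : ℝ) ^ j) (10 * q), div_div_eq_mul_div,
    div_eq_iff (by positivity)]
  calc ((10 * q).factorial : ℝ) * (((1 / 2 : ℝ) ^ j) ^ (10 * q) *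
      ((1 / 2 : ℝ) ^ (10 * n) * θ ^ (10 * q))) * (2 ^ j) ^ (10 * q) =
      ((10 * q).factorial : ℝ) * ((1 / 2 : ℝ) ^ (10 * n) * θ ^ (10 * q)) *
      (((1 / 2 : ℝ) ^ j) ^ (10 * q) * (2 ^ j) ^ (10 * q)) := by ring
    _ = ((10 * q).factorial : ℝ) * (1 / 2) ^ (10 * n) * θ ^ (10 * q) := by rw [e2]; ring

end Pool.Agent.Helper14.BM
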