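import Mathlib
import Pool.Agent.Helper14.BM.Prob

/-!
# Borel–Cantelli
-/

open MeasureTheory ProbabilityTheory Set Filter
open scoped NNReal ENNReal Topology

namespace Pool.Agent.Helper14.BM

variable {Ω : Type*} [mΩ : MeasurableSpace Ω]

theorem bc {P : Measure Ω} [IsProbabilityMeasure P] {E : ℕ → Set Ω} {c : ℕ → ℝ}
    (hE : ∀ j, P.real (E j) ≤ c j) (hc : Summable c) : ∀ᵐ ω ∂P, ∀ᶠ j in atTop, ω ∉ E j := by
  apply ae_eventually_notMem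
  have h1 : ∀ j, P (E j) ≤ ENNReal.ofReal (c j) := by
    intro j
    rw [← ofReal_measureReal (measure_ne_top P (E j))]
    exact ENNReal.ofReal_le_ofReal (hE j)
  exact ne_top_of_le_ne_top hc.tsum_ofReal_ne_top (ENNReal.tsum_le_tsum h1)

theorem card_Icc_real (M : ℕ) (j : ℕ) :
    ((Finset.Icc (-((M * 2 ^ j : ℕ) : ℤ)) ((M * 2 ^ j : ℕ) : ℤ)).card : ℝ) =
      2 * (M * 2 ^ j) + 1 := by
  rw [Int.card_Icc]
  have : (((M * 2 ^ j : ℕ) : ℤ) + 1 - -((M * 2 ^ j : ℕ) : ℤ)).toNat = 2 * (M * 2 ^ j) + 1 := by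
    omega
  rw [this]
  push_cast
  ring

theorem ae_diff {W : ℝ → Ω → ℝ} {P : Measure Ω} [IsProbabilityMeasure P] (hW : Nice W P)
    (hW0 : ∀ ω, W 0 ω = 0) {f : ℝ → ℝ} (hf : Continuous f) {ρ : ℝ} (hρ : 0 < ρ)
    (hρ16 : ρ ^ 16 = 1 / 2) :
    ∀ᵐ ω ∂P, ∀ M : ℕ, ∀ᶠ j : ℕ in atTop, ∀ n m : ℕ, 8 * n ≤ j → m < 2 ^ n → ∀ i : ℤ,
      |i| ≤ ((M * 2 ^ j : ℕ) : ℤ) →
      |loc (fun t => W t ω - f t) j i ((m : ℝ) / 2 ^ n) (((m : ℝ) + 1) / 2 ^ n) -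
        loc (fun t => W t ω - f t) j (i + 1) ((m : ℝ) / 2 ^ n) (((m : ℝ) + 1) / 2 ^ n)| ≤
        ρ ^ j := by
  have hρ1 : ρ < 1 := by
    by_contra hc
    have h1 : 1 ≤ ρ ^ 16 := one_le_pow₀ (not_lt.mp hc)
    rw [hρ16] at h1
    norm_num at h1
  rw [ae_all_iff]
  intro M
  set A : ℕ → ℕ → ℕ → ℤ → Set Ω := fun j n m i => {ω | ρ ^ j <
    |loc (fun t => W t ω - f t) j i ((m : ℝ) / 2 ^ n) (((m : ℝ) + 1) / 2 ^ n) -
      loc (fun t => W t ω - f t) j (i + 1) ((m : ℝ) / 2 ^ n) (((m : ℝ) + 1) / 2 ^ n)|} with hA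
  set E : ℕ → Set Ω := fun j => ⋃ n ∈ Finset.range (j / 8 + 1), ⋃ m ∈ Finset.range (2 ^ n),
    ⋃ i ∈ Finset.Icc (-((M * 2 ^ j : ℕ) : ℤ)) ((M * 2 ^ j : ℕ) : ℤ), A j n m i with hEdef
  have hE : ∀ j, P.real (E j) ≤ (2 * M + 1) * 3072 * (((j : ℝ) ^ 1 * (ρ ^ 2) ^ j) +
      ((j : ℝ) ^ 0 * (ρ ^ 2) ^ j)) := by
    intro j
    have h1 : P.real (E j) ≤ ∑ n ∈ Finset.range (j / 8 + 1), ∑ m ∈ Finset.range (2 ^ n),
        ∑ i ∈ Finset.Icc (-((M * 2 ^ j : ℕ) : ℤ)) ((M * 2 ^ j : ℕ) : ℤ),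
          (3072 * ρ ^ (20 * j)) := by
      refine (measureReal_biUnion_finset_le _ _).trans ?_
      refine Finset.sum_le_sum fun n _ => ?_
      refine (measureReal_biUnion_finset_le _ _).trans ?_
      refine Finset.sum_le_sum fun m hm => ?_
      refine (measureReal_biUnion_finset_le _ _).trans ?_
      refine Finset.sum_le_sum fun i _ => ?_
      have hm' : m < 2 ^ n := Finset.mem_range.mp hm
      have hm1 : (m : ℝ) + 1 ≤ 2 ^ n := by exact_mod_cast hm'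
      have h2n : (0 : ℝ) < 2 ^ n := by positivity
      exact diff_prob hW hW0 hf hρ hρ16 (by positivity) (by gcongr; linarith)
        (by rw [div_le_one h2n]; exact hm1) j i
    refine h1.trans ?_
    have h2 : ∀ n ∈ Finset.range (j / 8 + 1), (∑ m ∈ Finset.range (2 ^ n),
        ∑ i ∈ Finset.Icc (-((M * 2 ^ j : ℕ) : ℤ)) ((M * 2 ^ j : ℕ) : ℤ),
          (3072 * ρ ^ (20 * j))) ≤ (2 * M + 1) * 3072 * (ρ ^ 2) ^ j := by
      intro n hn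
      rw [Finset.sum_const, Finset.card_range, Finset.sum_const, nsmul_eq_mul, nsmul_eq_mul,
        card_Icc_real]
      have hn' : 8 * n ≤ j := by
        have := Finset.mem_range.mp hn
        omega
      have e1 : (2 : ℝ) ^ n * ρ ^ (2 * j) ≤ 1 := by
        have e2 : ρ ^ (2 * j) ≤ ρ ^ (16 * n) := pow_le_pow_of_le_one hρ.le hρ1.le (by omega)
        calc (2 : ℝ) ^ n * ρ ^ (2 * j) ≤ 2 ^ n * ρ ^ (16 * n) := by gcongr
          _ = 1 := by rw [pow_mul, hρ16, ← mul_pow]; norm_num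
      have e3 : (2 * ((M : ℝ) * 2 ^ j) + 1) * ρ ^ (16 * j) ≤ 2 * M + 1 := by
        have e4 : (2 : ℝ) ^ j * ρ ^ (16 * j) = 1 := by
          rw [pow_mul, hρ16, ← mul_pow]; norm_num
        have e5 : ρ ^ (16 * j) ≤ 1 := pow_le_one₀ hρ.le hρ1.le
        calc (2 * ((M : ℝ) * 2 ^ j) + 1) * ρ ^ (16 * j) =
            2 * M * (2 ^ j * ρ ^ (16 * j)) + ρ ^ (16 * j) := by ring
          _ ≤ 2 * M + 1 := by rw [e4]; linarith
      have e6 : ρ ^ (20 * j) = ρ ^ (16 * j) * ρ ^ (2 * j) * (ρ ^ 2) ^ j := by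
        rw [← pow_mul, ← pow_add, ← pow_add]
        congr 1
        ring
      rw [e6]
      push_cast
      have p1 : 0 ≤ (2 * ((M : ℝ) * 2 ^ j) + 1) * ρ ^ (16 * j) := by positivity
      have p2 : 0 ≤ (ρ ^ 2) ^ j := by positivity
      calc (2 : ℝ) ^ n * ((2 * ((M : ℝ) * 2 ^ j) + 1) *
          (3072 * (ρ ^ (16 * j) * ρ ^ (2 * j) * (ρ ^ 2) ^ j))) =
          3072 * (ρ ^ 2) ^ j * ((2 : ℝ) ^ n * ρ ^ (2 * j)) *
            ((2 * ((M : ℝ) * 2 ^ j) + 1) * ρ ^ (16 * j)) := by ring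
        _ ≤ 3072 * (ρ ^ 2) ^ j * 1 * (2 * M + 1) := by gcongr
        _ = (2 * M + 1) * 3072 * (ρ ^ 2) ^ j := by ring
    refine (Finset.sum_le_sum h2).trans ?_
    rw [Finset.sum_const, Finset.card_range, nsmul_eq_mul]
    have h3 : ((j / 8 + 1 : ℕ) : ℝ) ≤ j + 1 := by
      have : j / 8 + 1 ≤ j + 1 := by omega
      exact_mod_cast this
    calc ((j / 8 + 1 : ℕ) : ℝ) * ((2 * M + 1) * 3072 * (ρ ^ 2) ^ j) ≤
        (j + 1) * ((2 * M + 1) * 3072 * (ρ ^ 2) ^ j) := by gcongr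
      _ = _ := by ring
  have hsum : Summable (fun j : ℕ => (2 * (M : ℝ) + 1) * 3072 * (((j : ℝ) ^ 1 * (ρ ^ 2) ^ j) +
      ((j : ℝ) ^ 0 * (ρ ^ 2) ^ j))) := by
    have hr : ‖ρ ^ 2‖ < 1 := by
      rw [Real.norm_eq_abs, abs_of_pos (by positivity)]
      exact pow_lt_one₀ hρ.le hρ1 (by norm_num)
    exact ((summable_pow_mul_geometric_of_norm_lt_one 1 hr).add
      (summable_pow_mul_geometric_of_norm_lt_one 0 hr)).mul_left _
  filter_upwards [bc hE hsum] with ω hω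
  filter_upwards [hω] with j hj
  intro n m hn hm i hi
  by_contra hcon
  apply hj
  rw [abs_le] at hi
  simp only [hEdef, mem_iUnion]
  refine ⟨n, Finset.mem_range.mpr (by omega), m, Finset.mem_range.mpr hm, i,
    Finset.mem_Icc.mpr hi, ?_⟩
  exact not_le.mp hcon

theorem ae_base {W : ℝ → Ω → ℝ} {P : Measure Ω} [IsProbabilityMeasure P] (hW : Nice W P)
    (hW0 : ∀ ω, W 0 ω = 0) {f : ℝ → ℝ} (hf : Continuous f) {q : ℕ} (hq : 0 < q) :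
    ∀ᵐ ω ∂P, ∀ M : ℕ, ∀ᶠ n : ℕ in atTop, ∀ m : ℕ, m < 2 ^ n → ∀ i : ℤ,
      |i| ≤ ((M * 2 ^ (8 * n) : ℕ) : ℤ) →
      loc (fun t => W t ω - f t) (8 * n) i ((m : ℝ) / 2 ^ n) (((m : ℝ) + 1) / 2 ^ n) ≤
        ((1 / 2 : ℝ) ^ n) ^ (1 / 2 - 1 / q : ℝ) := by
  rw [ae_all_iff]
  intro M
  set A : ℕ → ℕ → ℤ → Set Ω := fun n m i => {ω | ((1 / 2 : ℝ) ^ n) ^ (1 / 2 - 1 / q : ℝ) <
    loc (fun t => W t ω - f t) (8 * n) i ((m : ℝ) / 2 ^ n) (((m : ℝ) + 1) / 2 ^ n)} with hA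
  set E : ℕ → Set Ω := fun n => ⋃ m ∈ Finset.range (2 ^ n),
    ⋃ i ∈ Finset.Icc (-((M * 2 ^ (8 * n) : ℕ) : ℤ)) ((M * 2 ^ (8 * n) : ℕ) : ℤ), A n m i with hEdef
  have hE : ∀ n, P.real (E n) ≤ (2 * M + 1) * ((10 * q).factorial : ℝ) * (1 / 2) ^ n := by
    intro n
    have h1 : P.real (E n) ≤ ∑ m ∈ Finset.range (2 ^ n),
        ∑ i ∈ Finset.Icc (-((M * 2 ^ (8 * n) : ℕ) : ℤ)) ((M * 2 ^ (8 * n) : ℕ) : ℤ),
          (((10 * q).factorial : ℝ) * (1 / 2) ^ (10 * n)) := by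
      refine (measureReal_biUnion_finset_le _ _).trans ?_
      refine Finset.sum_le_sum fun m hm => ?_
      refine (measureReal_biUnion_finset_le _ _).trans ?_
      refine Finset.sum_le_sum fun i _ => ?_
      refine base_prob hW hW0 hf hq (by positivity) n ?_ (8 * n) i
      rw [one_div_pow]
      ring
    refine h1.trans ?_
    rw [Finset.sum_const, Finset.card_range, Finset.sum_const, nsmul_eq_mul, nsmul_eq_mul,
        card_Icc_real]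
    push_cast
    have e1 : (2 : ℝ) ^ n * (1 / 2) ^ n = 1 := by rw [← mul_pow]; norm_num
    have e3 : (2 * ((M : ℝ) * 2 ^ (8 * n)) + 1) * (1 / 2) ^ (8 * n) ≤ 2 * M + 1 := by
      have e4 : (2 : ℝ) ^ (8 * n) * (1 / 2) ^ (8 * n) = 1 := by
        rw [← mul_pow]; norm_num
      have e5 : (1 / 2 : ℝ) ^ (8 * n) ≤ 1 := pow_le_one₀ (by norm_num) (by norm_num)
      calc (2 * ((M : ℝ) * 2 ^ (8 * n)) + 1) * (1 / 2) ^ (8 * n) =
          2 * M * (2 ^ (8 * n) * (1 / 2) ^ (8 * n)) + (1 / 2) ^ (8 * n) := by ring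
        _ ≤ 2 * M + 1 := by rw [e4]; linarith
    have e6 : (1 / 2 : ℝ) ^ (10 * n) = (1 / 2) ^ (8 * n) * (1 / 2) ^ n * (1 / 2) ^ n := by
      rw [← pow_add, ← pow_add]
      congr 1
      ring
    rw [e6]
    calc (2 : ℝ) ^ n * ((2 * ((M : ℝ) * 2 ^ (8 * n)) + 1) *
        (((10 * q).factorial : ℝ) * ((1 / 2) ^ (8 * n) * (1 / 2) ^ n * (1 / 2) ^ n))) =
        ((10 * q).factorial : ℝ) * (1 / 2) ^ n * ((2 : ℝ) ^ n * (1 / 2) ^ n) *
          ((2 * ((M : ℝ) * 2 ^ (8 * n)) + 1) * (1 / 2) ^ (8 * n)) := by ring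
      _ ≤ ((10 * q).factorial : ℝ) * (1 / 2) ^ n * 1 * (2 * M + 1) := by
        rw [e1]
        gcongr
      _ = _ := by ring
  have hsum : Summable (fun n : ℕ => (2 * (M : ℝ) + 1) * ((10 * q).factorial : ℝ) *
      (1 / 2) ^ n) :=
    (summable_geometric_of_lt_one (by norm_num) (by norm_num)).mul_left _
  filter_upwards [bc hE hsum] with ω hω
  filter_upwards [hω] with n hn
  intro m hm i hi
  by_contra hcon
  apply hn
  rw [abs_le] at hi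
  simp only [hEdef, mem_iUnion]
  refine ⟨m, Finset.mem_range.mpr hm, i, Finset.mem_Icc.mpr hi, ?_⟩
  exact not_le.mp hcon

/-- outside of the range of the path nothing happens -/
theorem loc_zero_of_large {X : ℝ → ℝ} {R : ℝ} (hR : ∀ t ∈ Icc (0 : ℝ) 1, |X t| ≤ R) {a b : ℝ}
    (ha : 0 ≤ a) (hab : a ≤ b) (hb : b ≤ 1) {j : ℕ} {i : ℤ} (hi : (R + 1) * 2 ^ j ≤ |(i : ℝ)|) :
    loc X j i a b = 0 := by
  unfold loc
  have : ∫ v in a..b, phi j i (X v) = 0 := by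
    rw [intervalIntegral.integral_of_le hab]
    apply setIntegral_eq_zero_of_forall_eq_zero
    intro v hv
    by_contra hne
    have h1 := hat_ne_zero hne
    have h2 := hR v ⟨ha.trans hv.1.le, hv.2.trans hb⟩
    have h3 : |(2 : ℝ) ^ j * X v| ≤ 2 ^ j * R := by
      rw [abs_mul, abs_of_pos (by positivity : (0 : ℝ) < 2 ^ j)]
      gcongr
    have h4 : |(i : ℝ)| ≤ |(2 : ℝ) ^ j * X v| + |(2 : ℝ) ^ j * X v - i| := by
      have := abs_sub_abs_le_abs_sub (i : ℝ) (2 ^ j * X v)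
      rw [abs_sub_comm (i : ℝ)] at this
      linarith
    have h5 : (1 : ℝ) ≤ 2 ^ j := one_le_pow₀ (by norm_num)
    nlinarith
  rw [this, mul_zero]

theorem ae_good {W : ℝ → Ω → ℝ} {P : Measure Ω} [IsProbabilityMeasure P] (hW : Nice W P)
    (hW0 : ∀ ω, W 0 ω = 0) {f : ℝ → ℝ} (hf : Continuous f) {ρ : ℝ} (hρ : 0 < ρ)
    (hρ16 : ρ ^ 16 = 1 / 2) :
    ∀ᵐ ω ∂P, (∃ J, Good (fun t => W t ω - f t) ρ J) ∧
      ∀ q : ℕ, 0 < q → ∃ N, ∀ n ≥ N, ∀ m : ℕ, m < 2 ^ n → ∀ i : ℤ,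
      loc (fun t => W t ω - f t) (8 * n) i ((m : ℝ) / 2 ^ n) (((m : ℝ) + 1) / 2 ^ n) ≤
        ((1 / 2 : ℝ) ^ n) ^ (1 / 2 - 1 / q : ℝ) := by
  have h2 : ∀ᵐ ω ∂P, ∀ q : ℕ, 0 < q → ∀ M : ℕ, ∀ᶠ n : ℕ in atTop, ∀ m : ℕ, m < 2 ^ n → ∀ i : ℤ,
      |i| ≤ ((M * 2 ^ (8 * n) : ℕ) : ℤ) →
      loc (fun t => W t ω - f t) (8 * n) i ((m : ℝ) / 2 ^ n) (((m : ℝ) + 1) / 2 ^ n) ≤
        ((1 / 2 : ℝ) ^ n) ^ (1 / 2 - 1 / q : ℝ) := by
    rw [ae_all_iff]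
    intro q
    by_cases hq : 0 < q
    · filter_upwards [ae_base hW hW0 hf hq] with ω hω
      exact fun _ => hω
    · exact Eventually.of_forall fun ω h => absurd h hq
  filter_upwards [ae_diff hW hW0 hf hρ hρ16, h2] with ω hω1 hω2
  have hc : Continuous (fun t => W t ω - f t) := (hW.cont ω).sub hf
  obtain ⟨R, hR⟩ := isCompact_Icc.exists_bound_of_continuousOn (s := Icc (0 : ℝ) 1)
    hc.continuousOn
  have hR0 : 0 ≤ R := (norm_nonneg _).trans (hR 0 (by norm_num))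
  obtain ⟨M, hM⟩ := exists_nat_ge (R + 2)
  have hlarge : ∀ (j : ℕ) (i : ℤ), ¬ |i| ≤ ((M * 2 ^ j : ℕ) : ℤ) →
      (R + 1) * 2 ^ j ≤ |(i : ℝ)| ∧ (R + 1) * 2 ^ j ≤ |((i + 1 : ℤ) : ℝ)| := by
    intro j i hi
    have h1 : ((M * 2 ^ j : ℕ) : ℤ) < |i| := not_le.mp hi
    have h3 : (M : ℝ) * 2 ^ j < |(i : ℝ)| := by
      have : (((M * 2 ^ j : ℕ) : ℤ) : ℝ) < ((|i| : ℤ) : ℝ) := by exact_mod_cast h1
      push_cast at this
      exact this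
    have h4 : (1 : ℝ) ≤ 2 ^ j := one_le_pow₀ (by norm_num)
    have h5 : |(i : ℝ)| - 1 ≤ |((i + 1 : ℤ) : ℝ)| := by
      push_cast
      have := abs_sub_abs_le_abs_sub (i : ℝ) (-1)
      simp only [sub_neg_eq_add, abs_neg, abs_one] at this
      exact this
    constructor
    · nlinarith
    · nlinarith
  refine ⟨?_, ?_⟩
  · obtain ⟨J, hJ⟩ := eventually_atTop.mp (hω1 M)
    refine ⟨J, hc, hρ, hρ16, ?_⟩
    intro j hj n m hn hm i
    by_cases hi : |i| ≤ ((M * 2 ^ j : ℕ) : ℤ)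
    · exact hJ j hj n m hn hm i hi
    · obtain ⟨h3, h4⟩ := hlarge j i hi
      have hm1 : (m : ℝ) + 1 ≤ 2 ^ n := by exact_mod_cast hm
      have h2n : (0 : ℝ) < 2 ^ n := by positivity
      have hb : ((m : ℝ) + 1) / 2 ^ n ≤ 1 := by rw [div_le_one h2n]; exact hm1
      rw [loc_zero_of_large hR (by positivity) (by gcongr; linarith) hb h3,
        loc_zero_of_large hR (by positivity) (by gcongr; linarith) hb h4]
      simp only [sub_self, abs_zero]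
      positivity
  · intro q hq
    obtain ⟨N, hN⟩ := eventually_atTop.mp (hω2 q hq M)
    refine ⟨N, fun n hn m hm i => ?_⟩
    by_cases hi : |i| ≤ ((M * 2 ^ (8 * n) : ℕ) : ℤ)
    · exact hN n hn m hm i hi
    · obtain ⟨h3, h4⟩ := hlarge (8 * n) i hi
      have hm1 : (m : ℝ) + 1 ≤ 2 ^ n := by exact_mod_cast hm
      have h2n : (0 : ℝ) < 2 ^ n := by positivity
      have hb : ((m : ℝ) + 1) / 2 ^ n ≤ 1 := by rw [div_le_one h2n]; exact hm1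
      rw [loc_zero_of_large hR (by positivity) (by gcongr; linarith) hb h3]
      positivity

end Pool.Agent.Helper14.BM
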