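import Mathlib
import Pool.Agent.Helper14.BM.BC

/-!
# A nice modification of a Brownian motion
-/

open MeasureTheory ProbabilityTheory Set Filter
open scoped NNReal ENNReal Topology

namespace Pool.Agent.Helper14.BM

variable {Ω : Type*} [mΩ : MeasurableSpace Ω]

theorem exists_nice {B : ℝ≥0 → Ω → ℝ} {P : Measure Ω} (hB : IsBrownianReal B P) :
    ∃ W : ℝ → Ω → ℝ, Nice W P ∧ (∀ ω, W 0 ω = 0) ∧
      ∀ᵐ ω ∂P, ∀ t : ℝ, W t ω = B t.toNNReal ω := by
  obtain ⟨S, hSc, hSd⟩ := TopologicalSpace.exists_countable_dense ℝ≥0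
  have hae : ∀ᵐ ω ∂P, Continuous (B · ω) ∧ B 0 ω = 0 ∧
      ∀ t ∈ S, B t ω = (hB.aemeasurable t).mk (B t) ω := by
    have h1 : ∀ᵐ ω ∂P, ∀ t ∈ S, B t ω = (hB.aemeasurable t).mk (B t) ω :=
      (ae_ball_iff hSc).mpr fun t _ => (hB.aemeasurable t).ae_eq_mk
    filter_upwards [hB.cont, hB.eval_zero_ae_eq_zero, h1] with ω a b c
    exact ⟨a, b, c⟩
  obtain ⟨N, hN1, hN2, hN3⟩ := exists_measurable_superset_of_null hae
  have hG : ∀ ω, ω ∉ N → Continuous (B · ω) ∧ B 0 ω = 0 ∧
      ∀ t ∈ S, B t ω = (hB.aemeasurable t).mk (B t) ω := by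
    intro ω hω
    by_contra hcon
    exact hω (hN1 hcon)
  have hNae : ∀ᵐ ω ∂P, ω ∉ N := measure_eq_zero_iff_ae_notMem.mp hN3
  set W : ℝ → Ω → ℝ := fun t => Nᶜ.indicator (B t.toNNReal) with hW
  have hWG : ∀ ω, ω ∉ N → ∀ t : ℝ, W t ω = B t.toNNReal ω := by
    intro ω hω t
    exact indicator_of_mem hω _
  have hWN : ∀ ω, ω ∈ N → ∀ t : ℝ, W t ω = 0 := by
    intro ω hω t
    exact indicator_of_notMem (by simpa using hω) _
  have hWae : ∀ᵐ ω ∂P, ∀ t : ℝ, W t ω = B t.toNNReal ω := by
    filter_upwards [hNae] with ω hω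
    exact hWG ω hω
  have hcont : ∀ ω, Continuous fun t => W t ω := by
    intro ω
    by_cases hω : ω ∈ N
    · simp only [hWN ω hω]
      exact continuous_const
    · simp only [hWG ω hω]
      exact (hG ω hω).1.comp continuous_real_toNNReal
  have hmeas0 : ∀ t ∈ S, Measurable (Nᶜ.indicator (B t)) := by
    intro t ht
    have : Nᶜ.indicator (B t) = Nᶜ.indicator ((hB.aemeasurable t).mk (B t)) := by
      ext ω
      by_cases hω : ω ∈ N
      · rw [indicator_of_notMem (by simpa using hω), indicator_of_notMem (by simpa using hω)]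
      · rw [indicator_of_mem (by simpa using hω), indicator_of_mem (by simpa using hω)]
        exact (hG ω hω).2.2 t ht
    rw [this]
    exact (hB.aemeasurable t).measurable_mk.indicator hN2.compl
  have hmeas : ∀ t, Measurable (W t) := by
    intro t
    have hcl : t.toNNReal ∈ closure S := hSd t.toNNReal
    obtain ⟨x, hx1, hx2⟩ := mem_closure_iff_seq_limit.mp hcl
    refine measurable_of_tendsto_metrizable (f := fun n => Nᶜ.indicator (B (x n)))
      (fun n => hmeas0 _ (hx1 n)) ?_
    rw [tendsto_pi_nhds]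
    intro ω
    by_cases hω : ω ∈ N
    · have : ∀ n, Nᶜ.indicator (B (x n)) ω = 0 := fun n =>
        indicator_of_notMem (by simpa using hω) _
      simp only [this, hWN ω hω]
      exact tendsto_const_nhds
    · have : ∀ n, Nᶜ.indicator (B (x n)) ω = B (x n) ω := fun n =>
        indicator_of_mem (by simpa using hω) _
      simp only [this, hWG ω hω]
      exact ((hG ω hω).1.tendsto _).comp hx2
  have hprob : IsProbabilityMeasure P := hB.isGaussianProcess.isProbabilityMeasure
  refine ⟨W, ⟨hcont, hmeas, ?_, ?_⟩, ?_, hWae⟩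
  · -- law of the increments
    intro s u hs hsu
    have h1 := (hB.hasLaw_sub u.toNNReal s.toNNReal).map_eq
    have h2 : (fun ω => W u ω - W s ω) =ᵐ[P] B u.toNNReal - B s.toNNReal := by
      filter_upwards [hWae] with ω hω
      rw [hω, hω]
      rfl
    rw [Measure.map_congr h2, h1]
    congr 1
    have h3 : (u.toNNReal : ℝ≥0).1 = u := Real.coe_toNNReal u (hs.trans hsu)
    have h4 : (s.toNNReal : ℝ≥0).1 = s := Real.coe_toNNReal s hs
    rw [h3, h4]
    apply NNReal.eq
    rw [coe_nndist, Real.dist_eq, Real.coe_toNNReal _ (by linarith), abs_of_nonneg (by linarith)]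
  · -- independence
    intro s u hs hsu
    have h1 := hB.indepFun_shift u.toNNReal
    have hsu' : s.toNNReal ≤ u.toNNReal := Real.toNNReal_le_toNNReal hsu
    have hmp : Measurable (fun x : (Set.Iic u.toNNReal → ℝ) =>
        x ⟨u.toNNReal, mem_Iic.mpr le_rfl⟩ - x ⟨s.toNNReal, mem_Iic.mpr hsu'⟩) := by
      apply Measurable.sub
      · exact measurable_pi_apply _
      · exact measurable_pi_apply _
    have h2 := h1.comp measurable_id hmp
    have h3 : IndepFun (fun ω (t : ℝ≥0) => W (u.toNNReal + t) ω - W u ω)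
        (fun ω => W u ω - W s ω) P := by
      refine h2.congr ?_ ?_
      · filter_upwards [hWae] with ω hω
        ext t
        simp only [Function.comp, id]
        rw [hω, hω]
        congr 2
        exact (Real.toNNReal_coe (r := u.toNNReal + t)).symm
      · filter_upwards [hWae] with ω hω
        simp only [Function.comp]
        rw [hω, hω]
    rw [IndepFun_iff_Indep] at h3
    refine indep_of_indep_of_le_right h3.symm ?_
    unfold fut
    refine iSup_le fun v => ?_
    have h4 : (fun ω => W v ω - W u ω) =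
        (fun x : ℝ≥0 → ℝ => x ((v : ℝ) - u).toNNReal) ∘
          (fun ω (t : ℝ≥0) => W (u.toNNReal + t) ω - W u ω) := by
      ext ω
      simp only [Function.comp]
      congr 2
      have hv : u ≤ (v : ℝ) := v.2
      rw [Real.coe_toNNReal _ (hs.trans hsu), Real.coe_toNNReal _ (by linarith)]
      ring
    rw [h4, ← MeasurableSpace.comap_comp]
    apply MeasurableSpace.comap_mono
    exact Measurable.comap_le (measurable_pi_apply _)
  · intro ω
    by_cases hω : ω ∈ N
    · exact hWN ω hω 0
    · rw [hWG ω hω, Real.toNNReal_zero]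
      exact (hG ω hω).2.1

end Pool.Agent.Helper14.BM
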