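import Mathlib
import Pool.Agent.Helper14.BM.Modif

/-!
# The local time of `B - f`, its positivity set and the level sets
-/

open MeasureTheory ProbabilityTheory Set Filter
open scoped NNReal ENNReal Topology

namespace Pool.Agent.Helper14.BM

theorem half_le_of_forall {d : ℝ≥0∞}
    (h : ∀ q : ℕ, 3 ≤ q → ENNReal.ofReal (1 / 2 - 1 / q) ≤ d) : (1 / 2 : ℝ≥0∞) ≤ d := by
  have h1 : Tendsto (fun q : ℕ => ENNReal.ofReal (1 / 2 - 1 / q)) atTop
      (𝓝 (ENNReal.ofReal (1 / 2 - 0))) := by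
    apply ENNReal.tendsto_ofReal
    exact tendsto_const_nhds.sub tendsto_one_div_atTop_nhds_zero_nat
  have h2 : ENNReal.ofReal (1 / 2 - 0) ≤ d := by
    refine le_of_tendsto h1 ?_
    filter_upwards [eventually_ge_atTop 3] with q hq
    exact h q hq
  have h3 : ENNReal.ofReal (1 / 2 - 0) = (1 / 2 : ℝ≥0∞) := by
    rw [sub_zero, ENNReal.ofReal_div_of_pos (by norm_num)]
    simp
  rw [h3] at h2
  exact h2

theorem Good.half {X : ℝ → ℝ} {ρ : ℝ} {J : ℕ} (h : Good X ρ J)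
    (hN : ∀ q : ℕ, 0 < q → ∃ N, ∀ n ≥ N, ∀ m : ℕ, m < 2 ^ n → ∀ i : ℤ,
      loc X (8 * n) i ((m : ℝ) / 2 ^ n) (((m : ℝ) + 1) / 2 ^ n) ≤
        ((1 / 2 : ℝ) ^ n) ^ (1 / 2 - 1 / q : ℝ))
    {y : ℝ} (hy : 0 < LT X y) : (1 / 2 : ℝ≥0∞) ≤ dimH {t ∈ Icc (0 : ℝ) 1 | X t = y} := by
  apply half_le_of_forall
  intro q hq
  obtain ⟨N, hN'⟩ := hN q (by omega)
  have hq3 : (3 : ℝ) ≤ q := by exact_mod_cast hq
  have h1 : (1 : ℝ) / q ≤ 1 / 3 := by
    apply one_div_le_one_div_of_le (by norm_num) hq3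
  have h2 : (0 : ℝ) < 1 / q := by positivity
  exact h.dim (by linarith) (by linarith) hN' hy

theorem Good.full {X : ℝ → ℝ} {ρ : ℝ} {J : ℕ} (h : Good X ρ J) :
    volume {t ∈ Icc (0 : ℝ) 1 | 0 < LT X (X t)} = 1 := by
  have h1 := h.null
  have hm : MeasurableSet {t : ℝ | 0 < LT X (X t)} :=
    measurableSet_lt measurable_const (h.LT_cont.comp h.cont).measurable
  have h2 := measure_inter_add_sdiff (μ := volume) (Icc (0 : ℝ) 1) hm
  have h3 : Icc (0 : ℝ) 1 \ {t : ℝ | 0 < LT X (X t)} = {t ∈ Icc (0 : ℝ) 1 | LT X (X t) ≤ 0} := by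
    ext t
    simp [not_lt]
  have h4 : Icc (0 : ℝ) 1 ∩ {t : ℝ | 0 < LT X (X t)} = {t ∈ Icc (0 : ℝ) 1 | 0 < LT X (X t)} := by
    rfl
  rw [h3, h1, add_zero, h4, Real.volume_Icc] at h2
  rw [h2]
  simp

variable {Ω : Type*} [mΩ : MeasurableSpace Ω]

theorem exists_local_time {P : Measure Ω} {B : ℝ≥0 → Ω → ℝ} (hB : IsBrownianReal B P)
    {f : ℝ → ℝ} (hf : ContinuousOn f (Icc 0 1)) :
    ∃ L : ℝ → Ω → ℝ, (∀ y, Measurable (L y)) ∧
      ∀ᵐ ω ∂P, Continuous (fun y => L y ω) ∧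
        (∀ y, 0 < L y ω →
          (1 / 2 : ℝ≥0∞) ≤ dimH {t : ℝ | t ∈ Icc (0 : ℝ) 1 ∧ B t.toNNReal ω - f t = y}) ∧
        volume {t : ℝ | t ∈ Icc (0 : ℝ) 1 ∧ 0 < L (B t.toNNReal ω - f t) ω} = 1 := by
  have hprob : IsProbabilityMeasure P := hB.isGaussianProcess.isProbabilityMeasure
  obtain ⟨W, hW, hW0, hWB⟩ := exists_nice hB
  set g : ℝ → ℝ := fun t => f (projIcc (0 : ℝ) 1 zero_le_one t) with hg
  have hgc : Continuous g := by
    have : g = (Icc (0 : ℝ) 1).domRestrict f ∘ projIcc (0 : ℝ) 1 zero_le_one := by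
      ext t; rfl
    rw [this]
    exact hf.domRestrict.comp continuous_projIcc
  have hgf : ∀ t ∈ Icc (0 : ℝ) 1, g t = f t := by
    intro t ht
    simp only [hg, projIcc_of_mem zero_le_one ht]
  obtain ⟨ρ, hρ, hρ16⟩ : ∃ ρ : ℝ, 0 < ρ ∧ ρ ^ 16 = 1 / 2 := by
    refine ⟨(1 / 2 : ℝ) ^ (1 / 16 : ℝ), by positivity, ?_⟩
    rw [← Real.rpow_natCast, ← Real.rpow_mul (by norm_num)]
    norm_num
  refine ⟨fun y ω => LT (fun t => W t ω - g t) y, ?_, ?_⟩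
  · intro y
    unfold LT
    apply Measurable.limsup
    intro j
    unfold loc
    exact (integral_meas hW (phi_cont _ _) hgc zero_le_one).const_mul _
  · filter_upwards [ae_good hW hW0 hgc hρ hρ16, hWB] with ω hω hωB
    obtain ⟨⟨J, hJ⟩, hN⟩ := hω
    have hXt : ∀ t ∈ Icc (0 : ℝ) 1, W t ω - g t = B t.toNNReal ω - f t := by
      intro t ht
      rw [hωB, hgf t ht]
    refine ⟨hJ.LT_cont, ?_, ?_⟩
    · intro y hy
      have h1 := hJ.half hN hy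
      have h2 : {t ∈ Icc (0 : ℝ) 1 | W t ω - g t = y} =
          {t : ℝ | t ∈ Icc (0 : ℝ) 1 ∧ B t.toNNReal ω - f t = y} := by
        ext t
        constructor
        · rintro ⟨ht, h⟩
          exact ⟨ht, by rw [← hXt t ht]; exact h⟩
        · rintro ⟨ht, h⟩
          exact ⟨ht, by rw [hXt t ht]; exact h⟩
      rw [← h2]
      exact h1
    · have h1 := hJ.full
      have h2 : {t ∈ Icc (0 : ℝ) 1 | 0 < LT (fun t => W t ω - g t) (W t ω - g t)} =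
          {t : ℝ | t ∈ Icc (0 : ℝ) 1 ∧
            0 < LT (fun t => W t ω - g t) (B t.toNNReal ω - f t)} := by
        ext t
        constructor
        · rintro ⟨ht, h⟩
          exact ⟨ht, by rw [← hXt t ht]; exact h⟩
        · rintro ⟨ht, h⟩
          exact ⟨ht, by rw [hXt t ht]; exact h⟩
      rw [← h2]
      exact h1

theorem contains_compact_iff {L : ℝ → ℝ} (hL : Continuous L) {K D : Set ℝ} (hK : IsCompact K)
    (hD : D ⊆ K) (hKD : K ⊆ closure D) :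
    K ⊆ {y | 0 < L y} ↔ ∃ n : ℕ, ∀ y ∈ D, 1 / ((n : ℝ) + 1) ≤ L y := by
  constructor
  · intro h
    rcases K.eq_empty_or_nonempty with hKe | hKne
    · refine ⟨0, fun y hy => ?_⟩
      have := hD hy
      rw [hKe] at this
      exact absurd this (notMem_empty y)
    · obtain ⟨y0, hy0, hmin⟩ := hK.exists_isMinOn hKne hL.continuousOn
      obtain ⟨n, hn⟩ := exists_nat_one_div_lt (show 0 < L y0 from h hy0)
      exact ⟨n, fun y hy => hn.le.trans (hmin (hD hy))⟩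
  · rintro ⟨n, hn⟩ y hy
    have hcl : IsClosed {y | 1 / ((n : ℝ) + 1) ≤ L y} := isClosed_le continuous_const hL
    have h1 : closure D ⊆ {y | 1 / ((n : ℝ) + 1) ≤ L y} := closure_minimal hn hcl
    have h2 : 1 / ((n : ℝ) + 1) ≤ L y := h1 (hKD hy)
    have h3 : (0 : ℝ) < 1 / ((n : ℝ) + 1) := by positivity
    exact h3.trans_le h2

theorem exists_random_open {P : Measure Ω} {B : ℝ≥0 → Ω → ℝ} (hB : IsBrownianReal B P)
    {f : ℝ → ℝ} (hf : ContinuousOn f (Icc 0 1)) :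
    ∃ U : Ω → Set ℝ, (∀ ω, IsOpen (U ω)) ∧ (∀ ω, (U ω).Nonempty) ∧
      (∀ K : Set ℝ, IsCompact K → NullMeasurableSet {ω | K ⊆ U ω} P) ∧
      ∀ᵐ ω ∂P, ∀ y ∈ U ω,
        (1 / 2 : ℝ≥0∞) ≤ dimH {t : ℝ | t ∈ Icc (0 : ℝ) 1 ∧ B t.toNNReal ω - f t = y} := by
  classical
  obtain ⟨L, hLm, hL⟩ := exists_local_time hB hf
  set G : Set Ω := {ω | Continuous (fun y => L y ω) ∧ ∃ y, 0 < L y ω} with hG
  have hGae : ∀ᵐ ω ∂P, ω ∈ G := by
    filter_upwards [hL] with ω hω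
    refine ⟨hω.1, ?_⟩
    have h1 := hω.2.2
    have h2 : {t : ℝ | t ∈ Icc (0 : ℝ) 1 ∧ 0 < L (B t.toNNReal ω - f t) ω}.Nonempty := by
      apply nonempty_of_measure_ne_zero (μ := volume)
      rw [h1]
      exact one_ne_zero
    obtain ⟨t, _, ht⟩ := h2
    exact ⟨_, ht⟩
  refine ⟨fun ω => if ω ∈ G then {y | 0 < L y ω} else univ, ?_, ?_, ?_, ?_⟩
  · intro ω
    dsimp only
    by_cases h : ω ∈ G
    · rw [if_pos h]
      exact isOpen_lt continuous_const h.1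
    · rw [if_neg h]
      exact isOpen_univ
  · intro ω
    dsimp only
    by_cases h : ω ∈ G
    · rw [if_pos h]
      exact h.2
    · rw [if_neg h]
      exact univ_nonempty
  · intro K hK
    obtain ⟨D, hD1, hD2, hD3⟩ :=
      (TopologicalSpace.IsSeparable.of_separableSpace K).exists_countable_dense_subset
    have hm : MeasurableSet (⋃ n : ℕ, ⋂ y ∈ D, {ω | 1 / ((n : ℝ) + 1) ≤ L y ω}) := by
      apply MeasurableSet.iUnion
      intro n
      apply MeasurableSet.biInter hD2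
      intro y _
      exact measurableSet_le measurable_const (hLm y)
    refine hm.nullMeasurableSet.congr ?_
    filter_upwards [hGae] with ω hω
    apply propext
    have h1 := contains_compact_iff hω.1 hK hD1 hD3
    show ω ∈ (⋃ n : ℕ, ⋂ y ∈ D, {ω | 1 / ((n : ℝ) + 1) ≤ L y ω}) ↔
      K ⊆ (if ω ∈ G then {y | 0 < L y ω} else univ)
    rw [if_pos hω, h1]
    simp only [mem_iUnion, mem_iInter]
    rfl
  · filter_upwards [hL, hGae] with ω hω hωG y hy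
    rw [if_pos hωG] at hy
    exact hω.2.1 y hy

theorem maximal_open_full {P : Measure Ω} {B : ℝ≥0 → Ω → ℝ} (hB : IsBrownianReal B P)
    {f : ℝ → ℝ} (hf : ContinuousOn f (Icc 0 1)) :
    ∀ᵐ ω ∂P, volume {t : ℝ | t ∈ Icc (0 : ℝ) 1 ∧ B t.toNNReal ω - f t ∈
      ⋃₀ {V : Set ℝ | IsOpen V ∧ ∀ y ∈ V,
        (1 / 2 : ℝ≥0∞) ≤ dimH {s : ℝ | s ∈ Icc (0 : ℝ) 1 ∧ B s.toNNReal ω - f s = y}}} = 1 := by
  obtain ⟨L, hLm, hL⟩ := exists_local_time hB hf
  filter_upwards [hL] with ω hω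
  apply le_antisymm
  · have h1 : {t : ℝ | t ∈ Icc (0 : ℝ) 1 ∧ B t.toNNReal ω - f t ∈
      ⋃₀ {V : Set ℝ | IsOpen V ∧ ∀ y ∈ V,
        (1 / 2 : ℝ≥0∞) ≤ dimH {s : ℝ | s ∈ Icc (0 : ℝ) 1 ∧ B s.toNNReal ω - f s = y}}} ⊆
        Icc (0 : ℝ) 1 := fun t ht => ht.1
    refine (measure_mono h1).trans ?_
    rw [Real.volume_Icc]
    simp
  · refine hω.2.2.ge.trans (measure_mono ?_)
    rintro t ⟨ht, hLt⟩
    refine ⟨ht, mem_sUnion.mpr ⟨{y | 0 < L y ω}, ⟨isOpen_lt continuous_const hω.1, ?_⟩, hLt⟩⟩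
    exact fun y hy => hω.2.1 y hy

end Pool.Agent.Helper14.BM
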